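import Pool.Agent.helper5.EY.Loc

set_option autoImplicit false
set_option linter.unusedSectionVars false

/-!
# EY-Congr: invariance of the local multiplicity under isomorphisms of affine schemes
-/

namespace EY

open MvPolynomial

theorem mulAt_congr {σ τ : Type*} (I : Ideal (MvPolynomial σ ℂ)) (I' : Ideal (MvPolynomial τ ℂ))
    (p : σ → ℂ) (p' : τ → ℂ) (φ : MvPolynomial σ ℂ →ₐ[ℂ] MvPolynomial τ ℂ)
    (h1 : ∀ y, ∃ x, y - φ x ∈ I') (h2 : ∀ x, φ x ∈ I' ↔ x ∈ I)
    (h3 : ∀ x, eval p' (φ x) = eval p x) (h4 : ∀ y ∈ I', eval p' y = 0) :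
    mulAt I p = mulAt I' p' := by
  set S := Localization.AtPrime (pt p)
  set S' := Localization.AtPrime (pt p')
  set IS' := I'.map (algebraMap (MvPolynomial τ ℂ) S') with hIS'
  set f : MvPolynomial σ ℂ →ₐ[ℂ] (S' ⧸ IS') :=
    ((Ideal.Quotient.mkₐ ℂ IS').comp (IsScalarTower.toAlgHom ℂ (MvPolynomial τ ℂ) S')).comp φ with hf
  have hfx : ∀ x, f x = Ideal.Quotient.mk IS' (algebraMap _ S' (φ x)) := fun x => rfl
  have hun : ∀ y : (pt p).primeCompl, IsUnit (f y) := by
    intro y
    rw [hfx]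
    have hy : φ y ∈ (pt p').primeCompl := by
      intro hmem
      have h5 : eval p' (φ y) = 0 := mem_pt.mp hmem
      rw [h3] at h5
      exact y.2 (mem_pt.mpr h5)
    exact (IsLocalization.map_units S' (⟨φ y, hy⟩ : (pt p').primeCompl)).map _
  have hf0 : ∀ x, f x = 0 ↔ ∃ s ∈ (pt p).primeCompl, s * x ∈ I := by
    intro x
    rw [hfx, Ideal.Quotient.eq_zero_iff_mem, hIS',
      IsLocalization.algebraMap_mem_map_algebraMap_iff (pt p').primeCompl]
    constructor
    · rintro ⟨s', hs', hs'x⟩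
      obtain ⟨s, hs⟩ := h1 s'
      refine ⟨s, ?_, ?_⟩
      · intro hmem
        have h5 : eval p s = 0 := mem_pt.mp hmem
        have h6 := h4 _ hs
        rw [map_sub, h3, h5, sub_zero] at h6
        exact hs' (mem_pt.mpr h6)
      · rw [← h2, map_mul]
        have h7 : φ s * φ x = s' * φ x - (s' - φ s) * φ x := by ring
        rw [h7]
        exact I'.sub_mem hs'x (I'.mul_mem_right _ hs)
    · rintro ⟨s, hs, hsx⟩
      refine ⟨φ s, ?_, ?_⟩
      · intro hmem
        have h5 : eval p' (φ s) = 0 := mem_pt.mp hmem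
        rw [h3] at h5
        exact hs (mem_pt.mpr h5)
      · rw [← map_mul, h2]
        exact hsx
  let F₀ : S →+* (S' ⧸ IS') := IsLocalization.lift (M := (pt p).primeCompl) (S := S) (P := S' ⧸ IS') (g := (f : _ →+* _)) hun
  have hF₀ : ∀ x, F₀ (algebraMap _ S x) = f x := fun x => IsLocalization.lift_eq _ _
  let F : S →ₐ[ℂ] (S' ⧸ IS') := { F₀ with
    commutes' := fun c => by
      have e1 : algebraMap ℂ S c = algebraMap (MvPolynomial σ ℂ) S (algebraMap ℂ _ c) :=
        IsScalarTower.algebraMap_apply ℂ (MvPolynomial σ ℂ) S c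
      change F₀ (algebraMap ℂ S c) = _
      rw [e1, hF₀, AlgHom.commutes] }
  have hF : ∀ x, F (algebraMap _ S x) = f x := hF₀
  have hFs : Function.Surjective F := by
    intro z
    obtain ⟨y, rfl⟩ := Ideal.Quotient.mk_surjective z
    obtain ⟨r', s', rfl⟩ := IsLocalization.exists_mk'_eq (pt p').primeCompl y
    obtain ⟨r, hr⟩ := h1 r'
    obtain ⟨s, hs⟩ := h1 s'
    have hsc : s ∈ (pt p).primeCompl := by
      intro hmem
      have h5 : eval p s = 0 := mem_pt.mp hmem
      have h6 := h4 _ hs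
      rw [map_sub, h3, h5, sub_zero] at h6
      exact s'.2 (mem_pt.mpr h6)
    refine ⟨IsLocalization.mk' S r ⟨s, hsc⟩, ?_⟩
    have hmk : ∀ y : MvPolynomial τ ℂ, ∀ x : MvPolynomial σ ℂ, y - φ x ∈ I' →
        Ideal.Quotient.mk IS' (algebraMap _ S' y) = f x := by
      intro y x hyx
      rw [hfx, Ideal.Quotient.eq, ← map_sub]
      exact Ideal.mem_map_of_mem _ hyx
    have h8 : f s * F (IsLocalization.mk' S r ⟨s, hsc⟩) = f r := by
      rw [← hF s, ← hF r, ← map_mul]
      congr 1
      rw [mul_comm]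
      exact IsLocalization.mk'_spec S r ⟨s, hsc⟩
    have h9 : f s * Ideal.Quotient.mk IS' (IsLocalization.mk' S' r' s') = f r := by
      rw [← hmk _ _ hs, ← hmk _ _ hr, ← map_mul]
      congr 1
      rw [mul_comm]
      exact IsLocalization.mk'_spec S' r' s'
    exact (hun ⟨s, hsc⟩).mul_left_cancel (h8.trans h9.symm)
  have hker : RingHom.ker F = I.map (algebraMap (MvPolynomial σ ℂ) S) := by
    ext x
    obtain ⟨r, s, rfl⟩ := IsLocalization.exists_mk'_eq (pt p).primeCompl x
    rw [RingHom.mem_ker, IsLocalization.mk'_mem_map_algebraMap_iff (pt p).primeCompl]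
    have h8 : f s * F (IsLocalization.mk' S r s) = f r := by
      rw [← hF s, ← hF r, ← map_mul]
      congr 1
      rw [mul_comm]
      exact IsLocalization.mk'_spec S r s
    have h9 : F (IsLocalization.mk' S r s) = 0 ↔ f r = 0 := by
      rw [← h8]
      exact (hun s).mul_right_eq_zero.symm
    rw [h9, hf0]
  have e := (Ideal.quotientEquivAlgOfEq ℂ hker.symm).trans
    (Ideal.quotientKerAlgEquivOfSurjective hFs)
  exact e.toLinearEquiv.finrank_eq

end EY
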