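import Pool.Agent.helper5.EY.Tr

set_option autoImplicit false
set_option linter.unusedSectionVars false

/-!
# EY-Tr2: the transfer theorem
-/

namespace EY

open MvPolynomial LinearAlgebra.Projectivization

theorem eval_smul_hom {κ : Type*} [Fintype κ] {g : MvPolynomial κ ℂ} {n : ℕ} (hg : g.IsHomogeneous n)
    (c : ℂ) (x : κ → ℂ) : eval (c • x) g = c ^ n * eval x g := by
  rw [eval_eq', eval_eq', Finset.mul_sum]
  refine Finset.sum_congr rfl fun m hm => ?_
  have h1 : n = ∑ i, m i := by
    rw [hg.degree_eq_sum_deg_support hm]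
    exact Finset.sum_subset (Finset.subset_univ _) fun i _ hi => by simpa using hi
  have h2 : ∏ i, (c • x) i ^ m i = c ^ n * ∏ i, x i ^ m i := by
    rw [h1, ← Finset.prod_pow_eq_pow_sum, ← Finset.prod_mul_distrib]
    exact Finset.prod_congr rfl fun i _ => by rw [Pi.smul_apply, smul_eq_mul, mul_pow]
  rw [h2]
  ring

/-- `x` is an eigenvector (or zero) of `f` with respect to the quadratic form `x.Sx` -/
def IsEig {κ : Type} [Fintype κ] (f : MvPolynomial κ ℂ) (S : Matrix κ κ ℂ) (x : κ → ℂ) : Prop :=
  ∀ j k, eval x (sl S j * pderiv k f - sl S k * pderiv j f) = 0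

theorem sl_isHomogeneous {κ : Type} [Fintype κ] (S : Matrix κ κ ℂ) (j : κ) :
    (sl S j).IsHomogeneous 1 := by
  refine IsHomogeneous.sum _ _ _ fun k _ => ?_
  have := (isHomogeneous_C κ (S j k)).mul (isHomogeneous_X ℂ k)
  simpa using this

theorem minor_isHomogeneous {κ : Type} [Fintype κ] (S : Matrix κ κ ℂ) {f : MvPolynomial κ ℂ} {d : ℕ}
    (hf : f.IsHomogeneous d) (j k : κ) :
    (sl S j * pderiv k f - sl S k * pderiv j f).IsHomogeneous (1 + (d - 1)) :=
  IsHomogeneous.sub ((sl_isHomogeneous S j).mul (hf.pderiv)) ((sl_isHomogeneous S k).mul (hf.pderiv))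

theorem IsEig.smul {κ : Type} [Fintype κ] {S : Matrix κ κ ℂ} {f : MvPolynomial κ ℂ} {d : ℕ}
    (hf : f.IsHomogeneous d) {x : κ → ℂ} (h : IsEig f S x) (c : ℂ) : IsEig f S (c • x) := by
  intro j k
  rw [eval_smul_hom (minor_isHomogeneous S hf j k), h j k, mul_zero]

section

variable {κ' : Type} [Fintype κ'] [DecidableEq κ'] {N : ℕ}
variable {S : Matrix (Option κ') (Option κ') ℂ} {a : Fin N → Option κ' → ℂ} {b : Option κ' → Fin N → ℂ}

theorem transfer_of_chg {d : ℕ} (h : Chg S a b) (f : MvPolynomial (Option κ') ℂ)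
    (hf : f.IsHomogeneous d) (w : Option κ')
    (hw : ∀ j, S w j = if j = none then 1 else 0) (p : κ' → ℂ)
    (hp : ∀ g ∈ affIdeal f S w, eval p g = 0)
    (hfin1 : {q : κ' → ℂ | ∀ g ∈ affIdeal f S w, eval q g = 0}.Finite)
    (hfin2 : ∃ T : Set (Option κ' → ℂ), T.Finite ∧
      ∀ x, x none = 0 → IsEig f S x → ∃ t ∈ T, ∃ c : ℂ, x = c • t) :
    ∃ f' : MvPolynomial (Fin N) ℂ, f'.IsHomogeneous d ∧ (eigenpoints f').Finite ∧
      ∃ l v : Fin N → ℂ, IsEigenvector f' v ∧ eval v (linForm l) = 1 ∧
        mulAt (chartIdeal f' l) v = mulAt (affIdeal f S w) p := by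
  set p₁ : Option κ' → ℂ := fun o => o.elim 1 p with hp₁
  set v : Fin N → ℂ := fun i => ∑ k, a i k * p₁ k with hv
  set f' := lsub b f with hf'
  have hev : ∀ x, eval p (dehom (lsub a x)) = eval v x := by
    intro x
    rw [eval_dehom, eval_lsub]
  have hlin : eval v (linForm (b none)) = 1 := by
    have h1 : linForm (b none) = lsub b (X none) := (lsub_X _ _).symm
    rw [← hev, h1, lsub_comp b a h.ba, dehom_X_none, map_one]
  have hmemv : ∀ x ∈ chartIdeal f' (b none), eval v x = 0 := by
    intro x hx
    rw [← hev]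
    exact hp _ ((dehom_lsub_mem_iff h f w hw x).mpr hx)
  refine ⟨f', lsub_isHomogeneous b hf, ?_, b none, v, ⟨?_, ?_⟩, hlin, ?_⟩
  · -- finiteness
    obtain ⟨T, hT, hT'⟩ := hfin2
    set Z : Set (Option κ' → ℂ) :=
      (fun q : κ' → ℂ => (fun o : Option κ' => o.elim 1 q)) ''
        {q : κ' → ℂ | ∀ g ∈ affIdeal f S w, eval q g = 0} ∪ T with hZ
    have hZfin : Z.Finite := (hfin1.image _).union hT
    have hv0 : v ≠ 0 := by
      intro h0
      rw [h0] at hlin
      have h2 : eval (0 : Fin N → ℂ) (linForm (b none)) = 0 := by simp [linForm]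
      rw [h2] at hlin
      exact zero_ne_one hlin
    classical
    let m : (Option κ' → ℂ) → ℙ ℂ (Fin N → ℂ) := fun x =>
      if hx : (fun i => ∑ k, a i k * x k : Fin N → ℂ) = 0 then Projectivization.mk ℂ v hv0
      else Projectivization.mk ℂ (fun i => ∑ k, a i k * x k) hx
    refine (hZfin.image m).subset ?_
    intro P hP
    have hP' : IsEigenvector f' P.rep := hP
    set y := P.rep with hy
    set x : Option κ' → ℂ := fun k => ∑ i, b k i * y i with hx
    have hax : (fun i => ∑ k, a i k * x k : Fin N → ℂ) = y := by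
      funext i
      simp only [hx, Finset.mul_sum]
      rw [Finset.sum_comm]
      have h1 : ∀ j, ∑ k, a i k * (b k j * y j) = (if i = j then 1 else 0) * y j := by
        intro j
        rw [← h.ab i j, Finset.sum_mul]
        exact Finset.sum_congr rfl fun k _ => by ring
      simp only [h1]
      simp
    have hxeig : IsEig f S x := by
      intro j k
      have h1 := chg_minor h f j k
      have h2 : ∀ g ∈ eigIdeal f', eval y g = 0 := by
        intro g hg
        unfold eigIdeal at hg
        induction hg using Submodule.span_induction with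
        | mem g hg =>
          obtain ⟨i, j, rfl⟩ := hg
          have := hP'.2 i j
          simpa using this
        | zero => simp
        | add u v _ _ hu hv => rw [map_add, hu, hv, add_zero]
        | smul c u _ hu => rw [smul_eq_mul, map_mul, hu, mul_zero]
      have h3 := h2 _ h1
      rw [eval_lsub] at h3
      exact h3
    have key : ∀ t : Option κ' → ℂ, ∀ c : ℂ, x = c • t → P = m t := by
      intro t c hct
      have h1 : y = c • (fun i => ∑ k, a i k * t k : Fin N → ℂ) := by
        rw [← hax, hct]
        funext i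
        simp only [Pi.smul_apply, smul_eq_mul, Finset.mul_sum]
        exact Finset.sum_congr rfl fun k _ => by ring
      have h2 : (fun i => ∑ k, a i k * t k : Fin N → ℂ) ≠ 0 := by
        intro h0
        rw [h0, smul_zero] at h1
        exact hP'.1 h1
      have h3 : m t = Projectivization.mk ℂ (fun i => ∑ k, a i k * t k) h2 := dif_neg h2
      rw [h3]
      conv_lhs => rw [← P.mk_rep]
      rw [Projectivization.mk_eq_mk_iff']
      exact ⟨c, h1.symm⟩
    by_cases hx0 : x none = 0
    · obtain ⟨t, ht, c, hc⟩ := hT' x hx0 hxeig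
      exact ⟨t, Or.inr ht, (key t c hc).symm⟩
    · set x₁ : Option κ' → ℂ := (x none)⁻¹ • x with hx₁
      have hx₁n : x₁ none = 1 := by
        rw [hx₁, Pi.smul_apply, smul_eq_mul, inv_mul_cancel₀ hx0]
      have hxx : x = (x none) • x₁ := by
        rw [hx₁, smul_smul, mul_inv_cancel₀ hx0, one_smul]
      have hx₁e : IsEig f S x₁ := hxeig.smul hf _
      refine ⟨x₁, Or.inl ⟨fun k => x₁ (some k), ?_, ?_⟩, (key x₁ _ hxx).symm⟩
      · intro g hg
        have hform : (fun o : Option κ' => o.elim 1 (fun k => x₁ (some k))) = x₁ := by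
          funext o
          cases o with
          | none => exact hx₁n.symm
          | some k => rfl
        unfold affIdeal at hg
        induction hg using Submodule.span_induction with
        | mem g hg =>
          obtain ⟨j, rfl⟩ := hg
          rw [eval_dehom, hform]
          have h4 := hx₁e w j
          have hslw : sl S w = X none := by
            unfold sl
            simp only [hw]
            simp
          rw [hslw, map_sub, map_mul, map_mul, eval_X, hx₁n, one_mul] at h4
          rw [map_sub, map_mul]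
          exact h4
        | zero => simp
        | add u v _ _ hu hv => rw [map_add, hu, hv, add_zero]
        | smul c u _ hu => rw [smul_eq_mul, map_mul, hu, mul_zero]
      · funext o
        cases o with
        | none => exact hx₁n.symm
        | some k => rfl
  · intro h0
    rw [h0] at hlin
    have h2 : eval (0 : Fin N → ℂ) (linForm (b none)) = 0 := by simp [linForm]
    rw [h2] at hlin
    exact zero_ne_one hlin
  · intro i j
    have h1 := hmemv (X i * pderiv j f' - X j * pderiv i f')
      (Ideal.mem_sup_left (Ideal.subset_span ⟨i, j, rfl⟩))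
    simpa using h1
  · refine mulAt_congr (chartIdeal f' (b none)) (affIdeal f S w) v p (dehom.comp (lsub a)) ?_ ?_ ?_ hp
    · intro y
      refine ⟨psi b y, ?_⟩
      have h1 : (dehom.comp (lsub a)) (psi b y) = y := by
        have h2 : ((dehom.comp (lsub a)).comp (psi b)) = AlgHom.id ℂ (MvPolynomial κ' ℂ) := by
          apply MvPolynomial.algHom_ext
          intro k
          simp only [AlgHom.comp_apply, AlgHom.id_apply]
          have h3 : psi b (X k) = lsub b (X (some k)) := aeval_X _ _
          rw [h3, lsub_comp b a h.ba, dehom_X_some]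
        exact AlgHom.congr_fun h2 y
      rw [h1, sub_self]
      exact Ideal.zero_mem _
    · intro x
      exact dehom_lsub_mem_iff h f w hw x
    · intro x
      exact hev x

end

/-- TRANSFER: a form `f` in the coordinates `Option κ'` with a nondegenerate quadratic form `x.Sx`, such that
`(Sx)_w = x_none`, gives a form in orthonormal coordinates with the same data: degree, finiteness of the eigenscheme,
length of the local ring at the point `(1, p)`. -/
theorem transfer {κ' : Type} [Fintype κ'] [DecidableEq κ'] {N d : ℕ} (hN : Fintype.card κ' + 1 = N)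
    (f : MvPolynomial (Option κ') ℂ) (hf : f.IsHomogeneous d)
    (S : Matrix (Option κ') (Option κ') ℂ) (hS : S.IsSymm) (hdet : S.det ≠ 0) (w : Option κ')
    (hw : ∀ j, S w j = if j = none then 1 else 0) (p : κ' → ℂ)
    (hp : ∀ g ∈ affIdeal f S w, eval p g = 0)
    (hfin1 : {q : κ' → ℂ | ∀ g ∈ affIdeal f S w, eval q g = 0}.Finite)
    (hfin2 : ∃ T : Set (Option κ' → ℂ), T.Finite ∧
      ∀ x, x none = 0 → IsEig f S x → ∃ t ∈ T, ∃ c : ℂ, x = c • t) :
    ∃ f' : MvPolynomial (Fin N) ℂ, f'.IsHomogeneous d ∧ (eigenpoints f').Finite ∧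
      ∃ l v : Fin N → ℂ, IsEigenvector f' v ∧ eval v (linForm l) = 1 ∧
        mulAt (chartIdeal f' l) v = mulAt (affIdeal f S w) p := by
  obtain ⟨a, b, h⟩ := exists_chg (N := N) (by rw [Fintype.card_option]; exact hN) S hS hdet
  exact transfer_of_chg h f hf w hw p hp hfin1 hfin2

end EY
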