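import Pool.Agent.helper5.EY.Comp
import Pool.Agent.helper26.SE.Asm

set_option autoImplicit false
set_option linter.unusedSectionVars false

/-!
# EY-Asm: from the modules to the hypotheses `hU`, `hS` of `SE.all_big`
-/

namespace EY

open MvPolynomial LinearAlgebra.Projectivization

/-- weighted homogeneous polynomials at homogeneous elements of the degrees of the weights -/
theorem wh_aeval_hom {σ τ : Type*} [Fintype σ] {v : σ → ℕ} {n : ℕ} {ψ : MvPolynomial σ ℂ} (h : wh v n ψ)
    (p : σ → MvPolynomial τ ℂ) (hp : ∀ i, (p i).IsHomogeneous (v i)) : (aeval p ψ).IsHomogeneous n := by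
  rw [aeval_def, eval₂_eq']
  refine IsHomogeneous.sum _ _ _ fun α hα => ?_
  have h1 : (∏ i, p i ^ α i).IsHomogeneous (∑ i, v i * α i) :=
    IsHomogeneous.prod _ _ _ fun i _ => (hp i).pow (α i)
  have h2 := (isHomogeneous_C τ (ψ.coeff α)).mul h1
  rw [zero_add] at h2
  have h3 : ∑ i, v i * α i = n := h α (mem_support_iff.mp hα)
  rw [h3] at h2
  exact h2

section

variable {τ : Type} [Fintype τ] [DecidableEq τ]

theorem qf_isHomogeneous : (qf τ).IsHomogeneous 2 := by
  unfold qf
  refine ((isHomogeneous_X _ _).mul (isHomogeneous_X _ _)).add ?_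
  have h1 : (∑ i : τ, (X (some (some i)) : MvPolynomial (Option (Option τ)) ℂ) ^ 2).IsHomogeneous 2 :=
    IsHomogeneous.sum _ _ _ fun i _ => by
      have := (isHomogeneous_X ℂ (some (some i) : Option (Option τ))).pow 2
      simpa using this
  have h2 := (isHomogeneous_C (Option (Option τ)) (1 / 2 : ℂ)).mul h1
  rwa [zero_add] at h2

theorem formC_isHomogeneous {q : ℕ} {φ : MvPolynomial (Option (Option τ)) ℂ} (h : wh (vw τ) (q + 1) φ) :
    (formC φ).IsHomogeneous (q + 1) := by
  have h1 : formC φ = aeval (fun o : Option (Option τ) => o.elim (qf τ) fun o' => X (some o')) φ := by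
    unfold formC subN
    rw [aeval_rename]
    congr 2
    funext o
    rcases o with _ | o <;> rfl
  rw [h1]
  refine wh_aeval_hom h _ fun o => ?_
  rcases o with _ | o
  · exact qf_isHomogeneous
  · exact isHomogeneous_X _ _

theorem formS_isHomogeneous {q : ℕ} {φ : MvPolynomial (Option (Option τ)) ℂ}
    {H : MvPolynomial (Option (Option (Option (Option τ)))) ℂ} (h : wh (vw τ) (q + 1) φ)
    (hH : (subN (qf (Option τ)) H).IsHomogeneous (q + 1)) : (formS φ H).IsHomogeneous (q + 1) := by
  unfold formS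
  rw [map_add]
  refine IsHomogeneous.add ?_ hH
  have h1 : subN (qf (Option τ)) (rename (embY τ) φ) =
      aeval (fun o : Option (Option τ) => o.elim (qf (Option τ)) fun o' => o'.elim (X (some none))
        fun i => X (some (some (some i)))) φ := by
    unfold subN
    rw [aeval_rename]
    congr 2
    funext o
    rcases o with _ | _ | o <;> rfl
  rw [h1]
  refine wh_aeval_hom h _ fun o => ?_
  rcases o with _ | _ | o
  · exact qf_isHomogeneous
  · exact isHomogeneous_X _ _
  · exact isHomogeneous_X _ _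

theorem subN_SHB_isHomogeneous {q n E : ℕ} (hn : 2 * n + 1 ≤ q) (hE : E ≤ q + 1) (α β : ℂ) :
    (subN (qf (Option τ)) (SHB τ q n E α β)).IsHomogeneous (q + 1) := by
  unfold SHB
  simp only [map_add, map_mul, map_pow]
  refine IsHomogeneous.add ?_ ?_
  · have h1 : subN (qf (Option τ)) (C α) = C α := by unfold subN; rw [aeval_C]; rfl
    have h2 : subN (qf (Option τ)) (X (some none)) = X none := subN_some _ _
    have h3 : subN (qf (Option τ)) (X (some (some (some none)))) = X (some (some none)) := subN_some _ _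
    rw [h1, h2, h3, subN_none]
    have h := (isHomogeneous_C (Option (Option (Option τ))) α).mul
      ((((isHomogeneous_X ℂ (none : Option (Option (Option τ)))).pow (q - 1 - 2 * n)).mul
      ((qf_isHomogeneous (τ := Option τ)).pow n)).mul
      ((isHomogeneous_X ℂ (some (some none) : Option (Option (Option τ)))).pow 2))
    have e : 0 + (1 * (q - 1 - 2 * n) + 2 * n + 1 * 2) = q + 1 := by omega
    rwa [e] at h
  · have h1 : subN (qf (Option τ)) (C β) = C β := by unfold subN; rw [aeval_C]; rfl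
    have h2 : subN (qf (Option τ)) (X (some none)) = X none := subN_some _ _
    have h3 : subN (qf (Option τ)) (X (some (some (some none)))) = X (some (some none)) := subN_some _ _
    rw [h1, h2, h3]
    have h := (isHomogeneous_C (Option (Option (Option τ))) β).mul
      (((isHomogeneous_X ℂ (none : Option (Option (Option τ)))).pow (q + 1 - E)).mul
      ((isHomogeneous_X ℂ (some (some none) : Option (Option (Option τ)))).pow E))
    have e : 0 + (1 * (q + 1 - E) + 1 * E) = q + 1 := by omega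
    rwa [e] at h

theorem subN_SHA_isHomogeneous {q n E : ℕ} (hn : 2 * n + 1 ≤ q) (hE1 : q + 2 ≤ E) (hE2 : E ≤ 2 * q) (α β : ℂ) :
    (subN (qf (Option τ)) (SHA τ q n E α β)).IsHomogeneous (q + 1) := by
  unfold SHA
  simp only [map_add, map_mul, map_pow]
  refine IsHomogeneous.add ?_ ?_
  · have h1 : subN (qf (Option τ)) (C α) = C α := by unfold subN; rw [aeval_C]; rfl
    have h2 : subN (qf (Option τ)) (X (some none)) = X none := subN_some _ _
    have h3 : subN (qf (Option τ)) (X (some (some (some none)))) = X (some (some none)) := subN_some _ _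
    rw [h1, h2, h3, subN_none]
    have h := (isHomogeneous_C (Option (Option (Option τ))) α).mul
      ((((isHomogeneous_X ℂ (none : Option (Option (Option τ)))).pow (q - 1 - 2 * n)).mul
      ((qf_isHomogeneous (τ := Option τ)).pow n)).mul
      ((isHomogeneous_X ℂ (some (some none) : Option (Option (Option τ)))).pow 2))
    have e : 0 + (1 * (q - 1 - 2 * n) + 2 * n + 1 * 2) = q + 1 := by omega
    rwa [e] at h
  · have h1 : subN (qf (Option τ)) (C β) = C β := by unfold subN; rw [aeval_C]; rfl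
    have h2 : subN (qf (Option τ)) (X (some (some none))) = X (some none) := subN_some _ _
    have h3 : subN (qf (Option τ)) (X (some (some (some none)))) = X (some (some none)) := subN_some _ _
    rw [h1, h2, h3]
    have h := (isHomogeneous_C (Option (Option (Option τ))) β).mul
      (((isHomogeneous_X ℂ (some none : Option (Option (Option τ)))).pow (E - q - 1)).mul
      ((isHomogeneous_X ℂ (some (some none) : Option (Option (Option τ)))).pow (2 * q + 2 - E)))
    have e : 0 + (1 * (E - q - 1) + 1 * (2 * q + 2 - E)) = q + 1 := by omega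
    rwa [e] at h

theorem eval_zero_of_mulAt_ne_zero {σ : Type*} {I : Ideal (MvPolynomial σ ℂ)} {p : σ → ℂ} (h : mulAt I p ≠ 0) :
    ∀ g ∈ I, eval p g = 0 := by
  intro g hg
  by_contra hne
  apply h
  unfold mulAt
  have hu : IsUnit (algebraMap (MvPolynomial σ ℂ) (Localization.AtPrime (pt p)) g) :=
    IsLocalization.map_units (M := (pt p).primeCompl) (Localization.AtPrime (pt p))
      ⟨g, fun hm => hne (mem_pt.mp hm)⟩
  have htop : I.map (algebraMap (MvPolynomial σ ℂ) (Localization.AtPrime (pt p))) = ⊤ :=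
    Ideal.eq_top_of_isUnit_mem _ (Ideal.mem_map_of_mem _ hg) hu
  rw [htop]
  have : Subsingleton (Localization.AtPrime (pt p) ⧸ (⊤ : Ideal (Localization.AtPrime (pt p)))) :=
    Ideal.Quotient.subsingleton_iff.mpr rfl
  exact Module.finrank_zero_of_subsingleton

/-- `rz_of_form` for `m ≠ 0` -/
theorem rz_of_form' {q N m : ℕ} (hN : Fintype.card τ + 2 = N) (hm0 : m ≠ 0)
    (f : MvPolynomial (Option (Option τ)) ℂ) (hf : f.IsHomogeneous (q + 1))
    (hfin : ProjFin {x | IsEig f (gram τ) x})
    (hm : mulAt (affIdeal f (gram τ) (some none)) 0 = m) : Rz q N m :=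
  rz_of_form hN f hf hfin (eval_zero_of_mulAt_ne_zero (by rw [hm]; exact hm0)) hm

end

section

variable {q : ℕ}

/-- the hypothesis `hU` of `SE.all_big` -/
theorem hU_of (hq : 2 ≤ q)
    (HU : ∀ K E, 2 * E ≤ q ^ (K + 1) → ∃ φ, MSt (Fin K) q E φ)
    (HC : ∀ K E φ, MSt (Fin K) q E φ →
      mulAt (affIdeal (formC φ) (gram (Fin K)) (some none)) 0 + E = q ^ K + q ^ (K + 1))
    (HF : ∀ K E φ, MSt (Fin K) q E φ → ProjFin {x | IsEig (formC φ) (gram (Fin K)) x}) (κ m : ℕ)
    (h1 : (q + 2) * q ^ κ ≤ 2 * m) (h2 : m ≤ (q + 1) * q ^ κ) : Rz q (κ + 2) m := by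
  have hQ : 0 < q ^ κ := by positivity
  have e1 : (q + 2) * q ^ κ = q ^ (κ + 1) + 2 * q ^ κ := by ring
  have e2 : (q + 1) * q ^ κ = q ^ (κ + 1) + q ^ κ := by ring
  have hm0 : 0 < m := by
    rcases Nat.eq_zero_or_pos m with h | h
    · subst h
      have h0 : 0 < (q + 2) * q ^ κ := by positivity
      omega
    · exact h
  obtain ⟨φ, hφ⟩ := HU κ ((q + 1) * q ^ κ - m) (by omega)
  have h3 := HC κ _ φ hφ
  exact rz_of_form' (by simp) (by omega) (formC φ) (formC_isHomogeneous hφ.wh) (HF κ _ φ hφ) (by omega)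

/-- the hypothesis `hS` of `SE.all_big` -/
theorem hS_of (hq : 2 ≤ q)
    (HU : ∀ K E, 2 * E ≤ q ^ (K + 1) → ∃ φ, MSt (Fin K) q E φ)
    (HC : ∀ K E φ, MSt (Fin K) q E φ →
      mulAt (affIdeal (formC φ) (gram (Fin K)) (some none)) 0 + E = q ^ K + q ^ (K + 1))
    (HB : ∀ K E₀ φ, MSt (Fin K) q E₀ φ → ∀ n E, SE.Adm q n E → E ≤ q + 1 → ∃ α β : ℂ,
      mulAt (affIdeal (formS φ (SHB (Fin K) q n E α β)) (gram (Option (Fin K))) (some none)) 0 =
        mulAt (affIdeal (formC φ) (gram (Fin K)) (some none)) 0 + n * E * q ^ K ∧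
      ProjFin {x | IsEig (formS φ (SHB (Fin K) q n E α β)) (gram (Option (Fin K))) x})
    (HA : ∀ K E₀ φ, MSt (Fin K) q E₀ φ → ∀ n E, SE.Adm q n E → q + 2 ≤ E → ∃ α β : ℂ,
      mulAt (affIdeal (formS φ (SHA (Fin K) q n E α β)) (gram (Option (Fin K))) (some none)) 0 =
        mulAt (affIdeal (formC φ) (gram (Fin K)) (some none)) 0 + n * E * q ^ K ∧
      ProjFin {x | IsEig (formS φ (SHA (Fin K) q n E α β)) (gram (Option (Fin K))) x})
    (κ n E m : ℕ) (hA : SE.Adm q n E)
    (h1 : (q + 2) * q ^ κ ≤ 2 * m) (h2 : m ≤ (q + 1) * q ^ κ) : Rz q (κ + 3) (m + n * E * q ^ κ) := by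
  have hQ : 0 < q ^ κ := by positivity
  have e1 : (q + 2) * q ^ κ = q ^ (κ + 1) + 2 * q ^ κ := by ring
  have e2 : (q + 1) * q ^ κ = q ^ (κ + 1) + q ^ κ := by ring
  have hm0 : 0 < m := by
    rcases Nat.eq_zero_or_pos m with h | h
    · subst h
      have h0 : 0 < (q + 2) * q ^ κ := by positivity
      omega
    · exact h
  obtain ⟨φ, hφ⟩ := HU κ ((q + 1) * q ^ κ - m) (by omega)
  have h3 := HC κ _ φ hφ
  obtain ⟨hn1, hn2, hE3, hE4, hE5⟩ := hA
  rcases Nat.lt_or_ge E (q + 2) with hE | hE
  · obtain ⟨α, β, h4, h5⟩ := HB κ _ φ hφ n E ⟨hn1, hn2, hE3, hE4, hE5⟩ (by omega)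
    exact rz_of_form' (by simp) (by omega) _
      (formS_isHomogeneous hφ.wh (subN_SHB_isHomogeneous hn2 (by omega) α β)) h5 (by omega)
  · obtain ⟨α, β, h4, h5⟩ := HA κ _ φ hφ n E ⟨hn1, hn2, hE3, hE4, hE5⟩ hE
    exact rz_of_form' (by simp) (by omega) _
      (formS_isHomogeneous hφ.wh (subN_SHA_isHomogeneous hn2 hE hE4 α β)) h5 (by omega)

end

end EY
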