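import Pool.Agent.helper5.EY.Tr2
import Pool.Agent.helper50.EY.ClassC
import Pool.Agent.helper50.EY.Fin

set_option autoImplicit false
set_option linter.unusedSectionVars false

/-!
# EY-St: the COMMON definitions of the blueprint (class C states, forms of the step S, predicate `Rz`)

Base: helper50's `Aff.lean`, `ClassC.lean` (`qf`, `gram`, `ch`, `chSys`, `vw`, `formC`, `critOne`, `Enum`).
-/

namespace EY

open MvPolynomial LinearAlgebra.Projectivization

/-- A class C state (metric free): `φ(σ; w, x)` weighted homogeneous of degree `q + 1` (weights 2, 1, 1), the forms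
`φ(0; 0, x)` and `φ(0; w, x)` are nonsingular, and the scheme `(φ_w, φ_x)(σ; 1, x)` is finite of length `E`. -/
structure St (τ : Type) [Fintype τ] (q E : ℕ) (φ : MvPolynomial (Option (Option τ)) ℂ) : Prop where
  wh : wh (vw τ) (q + 1) φ
  ndx : ∀ p : Option (Option τ) → ℂ, p none = 0 → p (some none) = 0 →
    (∀ i, eval p (pderiv (some (some i)) φ) = 0) → p = 0
  nd : ∀ p : Option (Option τ) → ℂ, p none = 0 → (∀ v : Option τ, eval p (pderiv (some v) φ) = 0) → p = 0
  fin : Module.Finite ℂ (MvPolynomial (Option τ) ℂ ⧸ Ideal.span (Set.range (critOne φ)))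
  len : Enum φ = E

/-- the only critical points of `φ` are the points `(σ; 0, 0)` (needed only for the E-step) -/
def Crit {τ : Type} (φ : MvPolynomial (Option (Option τ)) ℂ) : Prop :=
  ∀ p : Option (Option τ) → ℂ, (∀ v, eval p (pderiv v φ) = 0) → ∀ v : Option τ, p (some v) = 0

/-- A metric class C state: moreover `φ_x (|x|²/2; 0, x)` and `(φ_w, φ_x)(|x|²/2; w, x)` have only the zero `0`. -/
structure MSt (τ : Type) [Fintype τ] (q E : ℕ) (φ : MvPolynomial (Option (Option τ)) ℂ) : Prop
    extends St τ q E φ where
  mx : ∀ p : Option (Option τ) → ℂ, p none = 1 / 2 * ∑ i, p (some (some i)) ^ 2 → p (some none) = 0 →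
    (∀ i, eval p (pderiv (some (some i)) φ) = 0) → p = 0
  m : ∀ p : Option (Option τ) → ℂ, p none = 1 / 2 * ∑ i, p (some (some i)) ^ 2 →
    (∀ v : Option τ, eval p (pderiv (some v) φ) = 0) → p = 0

/-- embedding of the variables `σ, w, x` of a class C form into the variables `T, u, w, y, x` of the step S:
`T = none`, `u = some none`, `w = some (some none)`, `y = some (some (some none))`,
`x_i = some (some (some (some i)))` -/
def embY (τ : Type) : Option (Option τ) → Option (Option (Option (Option τ))) :=
  fun o => o.elim none fun o' => o'.elim (some (some none)) fun i => some (some (some (some i)))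

/-- the form `φ(T; w, x) + H(T, u, w, y, x)` with `T = u w + (y² + |x|²) / 2`; the variables are
`u = none`, `w = some none`, `y = some (some none)`, `x_i = some (some (some i))`, the metric is `gram (Option τ)` -/
noncomputable def formS {τ : Type} [Fintype τ] (φ : MvPolynomial (Option (Option τ)) ℂ)
    (H : MvPolynomial (Option (Option (Option (Option τ)))) ℂ) : MvPolynomial (Option (Option (Option τ))) ℂ :=
  subN (qf (Option τ)) (rename (embY τ) φ + H)

/-- the second part of the step `S(n, E)`, case `3 ≤ E ≤ q + 1`: `α u^(q-1-2n) T^n y² + β u^(q+1-E) y^E` -/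
noncomputable def SHB (τ : Type) (q n E : ℕ) (α β : ℂ) : MvPolynomial (Option (Option (Option (Option τ)))) ℂ :=
  C α * (X (some none) ^ (q - 1 - 2 * n) * X none ^ n * X (some (some (some none))) ^ 2)
    + C β * (X (some none) ^ (q + 1 - E) * X (some (some (some none))) ^ E)

/-- the second part of the step `S(n, E)`, case `q + 2 ≤ E ≤ 2 q`: `α u^(q-1-2n) T^n y² + β w^(E-q-1) y^(2q+2-E)` -/
noncomputable def SHA (τ : Type) (q n E : ℕ) (α β : ℂ) : MvPolynomial (Option (Option (Option (Option τ)))) ℂ :=
  C α * (X (some none) ^ (q - 1 - 2 * n) * X none ^ n * X (some (some (some none))) ^ 2)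
    + C β * (X (some (some none)) ^ (E - q - 1) * X (some (some (some none))) ^ (2 * q + 2 - E))

/-- `Rz q N m`: there is a form `f` of degree `q + 1` in `N` variables with finite eigenscheme which has an
irreducible component of degree `m`. -/
def Rz (q N m : ℕ) : Prop :=
  ∃ f : MvPolynomial (Fin N) ℂ, f.IsHomogeneous (q + 1) ∧ (eigenpoints f).Finite ∧
    ∃ l v : Fin N → ℂ, IsEigenvector f v ∧ eval v (linForm l) = 1 ∧ mulAt (chartIdeal f l) v = m

/-- a form in the coordinates `u, w, x` with finite eigenscheme gives `Rz` -/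
theorem rz_of_form {τ : Type} [Fintype τ] [DecidableEq τ] {q N m : ℕ} (hN : Fintype.card τ + 2 = N)
    (f : MvPolynomial (Option (Option τ)) ℂ) (hf : f.IsHomogeneous (q + 1))
    (hfin : ProjFin {x | IsEig f (gram τ) x})
    (hz : ∀ g ∈ affIdeal f (gram τ) (some none), eval (0 : Option τ → ℂ) g = 0)
    (hm : mulAt (affIdeal f (gram τ) (some none)) 0 = m) : Rz q N m := by
  obtain ⟨T, hT, hT'⟩ := hfin
  have heig : ∀ x : Option (Option τ) → ℂ, x none = 1 →
      (∀ g ∈ affIdeal f (gram τ) (some none), eval (fun k => x (some k)) g = 0) → IsEig f (gram τ) x := by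
    intro x hx hg j k
    have h1 := hg _ (dehom_minor (S := gram τ) f (some none) j k)
    rw [eval_dehom] at h1
    have h2 : (fun o : Option (Option τ) => o.elim (1 : ℂ) (fun k => x (some k))) = x := by
      funext o
      cases o with
      | none => exact hx.symm
      | some k => rfl
    rw [h2] at h1
    exact h1
  obtain ⟨f', h1, h2, l, v, h3, h4, h5⟩ := transfer (N := N)
    (by rw [Fintype.card_option, ← hN]) f hf (gram τ) gram_symm gram_det (some none) gram_w 0 hz
    (by
      classical
      refine ((hT.image fun t : Option (Option τ) → ℂ => fun k : Option τ => (t none)⁻¹ * t (some k))).subset ?_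
      intro p hp
      obtain ⟨t, ht, c, hc⟩ := hT' (fun o => o.elim 1 p) (heig _ rfl hp)
      refine ⟨t, ht, ?_⟩
      have h0 : c * t none = 1 := (congrFun hc none).symm
      have hc' : c = (t none)⁻¹ := eq_inv_of_mul_eq_one_left h0
      funext k
      have h8 : p k = c * t (some k) := congrFun hc (some k)
      rw [h8, hc'])
    ⟨T, hT, fun x _ hx => hT' x hx⟩
  exact ⟨f', h1, h2, l, v, h3, h4, h5.trans hm⟩

end EY
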