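import Pool.Agent.helper5.EY.St

/-!
# Condition (Z): all partial derivatives vanish only at 0 (common definition)
-/

open MvPolynomial

namespace EY

/-- Condition (Z): all partial derivatives of the form vanish together only at the origin. -/
def ZZ {s : Type*} (φ : MvPolynomial s ℂ) : Prop :=
  ∀ p : s → ℂ, (∀ v, eval p (pderiv v φ) = 0) → p = 0

end EY
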