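import Mathlib

set_option autoImplicit false

/-!
# EY-Defs: eigenschemes of forms of any degree, local multiplicities (definitions)

`mulAt I p` is the dimension over `ℂ` of the local ring at the point `p` of the affine scheme defined by the ideal `I`
(the localization of `ℂ[x]` at `p` modulo the ideal generated by `I`).
-/

namespace EY

open MvPolynomial LinearAlgebra.Projectivization

/-- the maximal ideal of the point `p` -/
noncomputable def pt {σ : Type*} (p : σ → ℂ) : Ideal (MvPolynomial σ ℂ) := RingHom.ker (eval p)

instance pt_isPrime {σ : Type*} (p : σ → ℂ) : (pt p).IsPrime := RingHom.ker_isPrime _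

/-- the length of the local ring at `p` of the affine scheme defined by `I` -/
noncomputable def mulAt {σ : Type*} (I : Ideal (MvPolynomial σ ℂ)) (p : σ → ℂ) : ℕ :=
  Module.finrank ℂ (Localization.AtPrime (pt p) ⧸
    I.map (algebraMap (MvPolynomial σ ℂ) (Localization.AtPrime (pt p))))

/-- `v` is an eigenvector of the form `f`: it is nonzero and all the `2 × 2` minors of the matrix with rows
`x` and `∇f` vanish at `v`. -/
def IsEigenvector {N : ℕ} (f : MvPolynomial (Fin N) ℂ) (v : Fin N → ℂ) : Prop :=
  v ≠ 0 ∧ ∀ i j, v i * eval v (pderiv j f) - v j * eval v (pderiv i f) = 0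

/-- the closed points of the eigenscheme `X_f` in projective space -/
def eigenpoints {N : ℕ} (f : MvPolynomial (Fin N) ℂ) : Set (ℙ ℂ (Fin N → ℂ)) :=
  {P | IsEigenvector f P.rep}

/-- the ideal of the eigenscheme: all `2 × 2` minors of the matrix with rows `x` and `∇f` -/
noncomputable def eigIdeal {N : ℕ} (f : MvPolynomial (Fin N) ℂ) : Ideal (MvPolynomial (Fin N) ℂ) :=
  Ideal.span {g | ∃ i j, g = X i * pderiv j f - X j * pderiv i f}

/-- the linear form with coefficients `l` -/
noncomputable def linForm {N : ℕ} (l : Fin N → ℂ) : MvPolynomial (Fin N) ℂ := ∑ i, C (l i) * X i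

/-- the ideal of the eigenscheme in the affine chart `l = 1` (the complement of the hyperplane `l = 0`) -/
noncomputable def chartIdeal {N : ℕ} (f : MvPolynomial (Fin N) ℂ) (l : Fin N → ℂ) :
    Ideal (MvPolynomial (Fin N) ℂ) := eigIdeal f ⊔ Ideal.span {linForm l - 1}

end EY
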