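import Pool.Agent.helper5.EY.St
import Pool.Agent.helper40.EY.Chart

set_option autoImplicit false
set_option linter.unusedSectionVars false

/-!
# EY-Comp: components of the eigenscheme, final form of the statement
-/

namespace EY

open MvPolynomial LinearAlgebra.Projectivization

section

variable {N : ℕ}

theorem exists_lP (P : ℙ ℂ (Fin N → ℂ)) : ∃ l : Fin N → ℂ, eval P.rep (linForm l) = 1 := by
  obtain ⟨i, hi⟩ := Function.ne_iff.mp P.rep_nonzero
  refine ⟨Pi.single i (P.rep i)⁻¹, ?_⟩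
  have h1 : P.rep i ≠ 0 := hi
  unfold linForm
  rw [map_sum, Finset.sum_eq_single i]
  · rw [map_mul, eval_C, eval_X, Pi.single_eq_same, inv_mul_cancel₀ h1]
  · intro j _ hj
    rw [Pi.single_eq_of_ne hj]
    simp
  · intro h
    exact absurd (Finset.mem_univ i) h

/-- a linear form with value `1` at the chosen representative of `P` -/
noncomputable def lP (P : ℙ ℂ (Fin N → ℂ)) : Fin N → ℂ := (exists_lP P).choose

theorem eval_lP (P : ℙ ℂ (Fin N → ℂ)) : eval P.rep (linForm (lP P)) = 1 := (exists_lP P).choose_spec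

/-- the local ring of the eigenscheme of `f` at the point `P` of projective space -/
def localRing (f : MvPolynomial (Fin N) ℂ) (P : ℙ ℂ (Fin N → ℂ)) : Type :=
  LocQ (chartIdeal f (lP P)) P.rep

noncomputable instance (f : MvPolynomial (Fin N) ℂ) (P : ℙ ℂ (Fin N → ℂ)) : CommRing (localRing f P) :=
  inferInstanceAs (CommRing (LocQ (chartIdeal f (lP P)) P.rep))

noncomputable instance (f : MvPolynomial (Fin N) ℂ) (P : ℙ ℂ (Fin N → ℂ)) : Algebra ℂ (localRing f P) :=
  inferInstanceAs (Algebra ℂ (LocQ (chartIdeal f (lP P)) P.rep))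

/-- the degree of the component of the eigenscheme of `f` supported at `P` -/
noncomputable def mult (f : MvPolynomial (Fin N) ℂ) (P : ℙ ℂ (Fin N → ℂ)) : ℕ :=
  Module.finrank ℂ (localRing f P)

theorem mult_eq (f : MvPolynomial (Fin N) ℂ) (P : ℙ ℂ (Fin N → ℂ)) :
    mult f P = mulAt (chartIdeal f (lP P)) P.rep := rfl

theorem eval_linForm_smul (l v : Fin N → ℂ) (c : ℂ) : eval (c • v) (linForm l) = c * eval v (linForm l) := by
  have h := eval_smul_hom (linForm_isHomogeneous l) c v
  rwa [pow_one] at h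

theorem mult_mk {d : ℕ} {f : MvPolynomial (Fin N) ℂ} (hf : f.IsHomogeneous d) {l v : Fin N → ℂ} (hv : v ≠ 0)
    (hl : eval v (linForm l) = 1) : mult f (Projectivization.mk ℂ v hv) = mulAt (chartIdeal f l) v := by
  set P := Projectivization.mk ℂ v hv with hP
  obtain ⟨c, hc⟩ := (Projectivization.mk_eq_mk_iff' ℂ v P.rep hv P.rep_nonzero).mp (by rw [P.mk_rep])
  -- `c • P.rep = v`
  have h1 : eval v (linForm (lP P)) = c := by
    rw [← hc, eval_linForm_smul, eval_lP, mul_one]
  have hc0 : c ≠ 0 := by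
    rintro rfl
    rw [zero_smul] at hc
    exact hv hc.symm
  rw [mult_eq, mulAt_chartIdeal hf l (lP P) v hl (by rw [h1]; exact hc0)]
  congr 1
  funext i
  rw [h1, ← hc, Pi.smul_apply, smul_eq_mul, mul_div_cancel_left₀ _ hc0]

theorem mem_eigenpoints_mk {d : ℕ} {f : MvPolynomial (Fin N) ℂ} (hf : f.IsHomogeneous d) {v : Fin N → ℂ}
    (hv : IsEigenvector f v) : Projectivization.mk ℂ v hv.1 ∈ eigenpoints f := by
  set P := Projectivization.mk ℂ v hv.1 with hP
  obtain ⟨c, hc⟩ := (Projectivization.mk_eq_mk_iff' ℂ P.rep v P.rep_nonzero hv.1).mp (by rw [P.mk_rep])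
  refine ⟨P.rep_nonzero, fun i j => ?_⟩
  have h1 : (X i * pderiv j f - X j * pderiv i f : MvPolynomial (Fin N) ℂ).IsHomogeneous (1 + (d - 1)) :=
    ((isHomogeneous_X _ i).mul (hf.pderiv)).sub ((isHomogeneous_X _ j).mul (hf.pderiv))
  have h2 := eval_smul_hom h1 c v
  rw [hc] at h2
  have h3 := hv.2 i j
  have h4 : eval v (X i * pderiv j f - X j * pderiv i f) = 0 := by
    rw [map_sub, map_mul, map_mul, eval_X, eval_X]
    exact h3
  rw [h4, mul_zero, map_sub, map_mul, map_mul, eval_X, eval_X] at h2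
  exact h2

/-- the number `1 + q + ... + q ^ (N - 1)` -/
def DD (q N : ℕ) : ℕ := ∑ i ∈ Finset.range N, q ^ i

/-- `Rz` in terms of projective points -/
theorem Rz.exists_point {q m : ℕ} (h : Rz q N m) : ∃ f : MvPolynomial (Fin N) ℂ, f.IsHomogeneous (q + 1) ∧
    (eigenpoints f).Finite ∧ ∃ P ∈ eigenpoints f, mult f P = m := by
  obtain ⟨f, hf, hfin, l, v, hv, hl, hm⟩ := h
  exact ⟨f, hf, hfin, _, mem_eigenpoints_mk hf hv, (mult_mk hf hv.1 hl).trans hm⟩

theorem isLocalRing_localRing {f : MvPolynomial (Fin N) ℂ} {P : ℙ ℂ (Fin N → ℂ)} (h : mult f P ≠ 0) :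
    IsLocalRing (localRing f P) := by
  have : Nontrivial (localRing f P) := by
    by_contra hn
    rw [not_nontrivial_iff_subsingleton] at hn
    exact h Module.finrank_zero_of_subsingleton
  exact IsLocalRing.of_surjective' (Ideal.Quotient.mk ((chartIdeal f (lP P)).map
    (algebraMap (MvPolynomial (Fin N) ℂ) (Localization.AtPrime (pt P.rep))))) Ideal.Quotient.mk_surjective

/-- a component of degree at least two is not reduced -/
theorem not_isReduced {f : MvPolynomial (Fin N) ℂ} {P : ℙ ℂ (Fin N → ℂ)} (h : 2 ≤ mult f P) :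
    ¬ IsReduced (localRing f P) := by
  intro hr
  have hfin : Module.Finite ℂ (localRing f P) := Module.finite_of_finrank_pos (by unfold mult at h; omega)
  have hloc : IsLocalRing (localRing f P) := isLocalRing_localRing (by omega)
  have hart : IsArtinianRing (localRing f P) := IsArtinianRing.of_finite ℂ _
  have hfield : IsField (localRing f P) := IsArtinianRing.isField_of_isReduced_of_isLocalRing (localRing f P)
  let _ := hfield.toField
  have hb : Function.Surjective (algebraMap ℂ (localRing f P)) := by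
    have : Algebra.IsIntegral ℂ (localRing f P) := inferInstance
    exact (IsAlgClosed.algebraMap_bijective_of_isIntegral (k := ℂ) (K := localRing f P)).2
  have h1 : Module.finrank ℂ (localRing f P) ≤ 1 := by
    refine finrank_le_one (1 : localRing f P) fun w => ?_
    obtain ⟨c, rfl⟩ := hb w
    exact ⟨c, by rw [Algebra.smul_def, mul_one]⟩
  unfold mult at h
  omega

end

theorem DD_ge {q n : ℕ} (hq : 2 ≤ q) (hn : 1 ≤ n) : 3 ≤ DD q (n + 1) := by
  obtain ⟨k, rfl⟩ : ∃ k, n = k + 1 := ⟨n - 1, by omega⟩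
  unfold DD
  rw [Finset.sum_range_succ', Finset.sum_range_succ']
  have h0 : 0 ≤ ∑ i ∈ Finset.range k, q ^ (i + 1 + 1) := Nat.zero_le _
  simp only [pow_zero, zero_add, pow_one]
  omega

/-- the final form of the answer to Q1, from the realization of all degrees (`Rz`) and the theorem of
Cartwright and Sturmfels on the total degree -/
theorem final_iff {q n : ℕ} (hq : 2 ≤ q) (hn : 1 ≤ n)
    (hR : ∀ m, 1 ≤ m → m ≤ DD q (n + 1) → Rz q (n + 1) m)
    (hCS : ∀ f : MvPolynomial (Fin (n + 1)) ℂ, f.IsHomogeneous (q + 1) → ∀ hfin : (eigenpoints f).Finite,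
      (∀ P ∈ eigenpoints f, 1 ≤ mult f P) ∧ ∑ P ∈ hfin.toFinset, mult f P = DD q (n + 1)) (m : ℕ) :
    (∃ f : MvPolynomial (Fin (n + 1)) ℂ, f.IsHomogeneous (q + 1) ∧ (eigenpoints f).Finite ∧
      (∃ P ∈ eigenpoints f, ¬ IsReduced (localRing f P)) ∧ ∃ P ∈ eigenpoints f, mult f P = m) ↔
      1 ≤ m ∧ m ≤ DD q (n + 1) := by
  classical
  constructor
  · rintro ⟨f, hf, hfin, _, P, hP, rfl⟩
    obtain ⟨h1, h2⟩ := hCS f hf hfin
    refine ⟨h1 P hP, ?_⟩
    rw [← h2]
    exact Finset.single_le_sum (f := fun P => mult f P) (fun _ _ => Nat.zero_le _) (hfin.mem_toFinset.mpr hP)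
  · rintro ⟨hm1, hm2⟩
    by_cases hm : 2 ≤ m
    · obtain ⟨f, hf, hfin, P, hP, hmP⟩ := (hR m hm1 hm2).exists_point
      exact ⟨f, hf, hfin, ⟨P, hP, not_isReduced (by omega)⟩, P, hP, hmP⟩
    · have hm' : m = 1 := by omega
      subst hm'
      have hD := DD_ge hq hn
      obtain ⟨f, hf, hfin, P, hP, hmP⟩ := (hR (DD q (n + 1) - 1) (by omega) (by omega)).exists_point
      obtain ⟨h1, h2⟩ := hCS f hf hfin
      have hPm : P ∈ hfin.toFinset := hfin.mem_toFinset.mpr hP
      rw [← Finset.add_sum_erase _ _ hPm, hmP] at h2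
      have h3 : ∑ Q ∈ hfin.toFinset.erase P, mult f Q = 1 := by omega
      have hne : (hfin.toFinset.erase P).Nonempty := by
        rw [Finset.nonempty_iff_ne_empty]
        intro h0
        rw [h0, Finset.sum_empty] at h3
        exact zero_ne_one h3
      obtain ⟨Q, hQ⟩ := hne
      have hQ' : Q ∈ eigenpoints f := hfin.mem_toFinset.mp (Finset.mem_of_mem_erase hQ)
      have h4 : mult f Q ≤ 1 := by
        exact (Finset.single_le_sum (f := fun Q => mult f Q) (fun _ _ => Nat.zero_le _) hQ).trans_eq h3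
      exact ⟨f, hf, hfin, ⟨P, hP, not_isReduced (by omega)⟩, Q, hQ', le_antisymm h4 (h1 Q hQ')⟩

end EY
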