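import Pool.Agent.helper5.EY.Glue
import Pool.Agent.helper50.EY.ClassE
import Pool.Agent.helper50.EY.Scale
import Pool.Agent.helper26.SE.Two
import Pool.Agent.helper60.LS.L

set_option autoImplicit false
set_option linter.unusedSectionVars false

/-!
# EY-Big: all degrees are realized, `q ≥ 6`, from the three open modules U, S_mult, E-step
-/

namespace EY

open MvPolynomial LinearAlgebra.Projectivization

section

variable {q : ℕ}

theorem HC_of (hq : 2 ≤ q) : ∀ K E φ, MSt (Fin K) q E φ →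
    mulAt (affIdeal (formC φ) (gram (Fin K)) (some none)) 0 + E = q ^ K + q ^ (K + 1) := by
  intro K E φ h
  have h1 := classC (by omega) h
  rwa [Fintype.card_fin] at h1

theorem HF_of (hq : 2 ≤ q) : ∀ K E φ, MSt (Fin K) q E φ → ProjFin {x | IsEig (formC φ) (gram (Fin K)) x} :=
  fun _ _ _ h => h.projFin hq

theorem HU_of (hq : 2 ≤ q) (hU : ∀ K E, 2 * E ≤ q ^ (K + 1) → ∃ φ, St (Fin K) q E φ) :
    ∀ K E, 2 * E ≤ q ^ (K + 1) → ∃ φ, MSt (Fin K) q E φ := by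
  intro K E hE
  obtain ⟨φ, hφ⟩ := hU K E hE
  obtain ⟨t, _, h, _⟩ := exists_mst_mg (by omega) hφ
  exact ⟨_, h⟩

/-- all degrees are realized for `q ≥ 6` -/
theorem rz_big (hq : 6 ≤ q) (hU : ∀ K E, 2 * E ≤ q ^ (K + 1) → ∃ φ, St (Fin K) q E φ)
    (M4B : ∀ K E₀ φ, MSt (Fin K) q E₀ φ → ∀ n E, SE.Adm q n E → E ≤ q + 1 → ∀ α β : ℂ, α ≠ 0 → β ≠ 0 →
      mulAt (affIdeal (formS φ (SHB (Fin K) q n E α β)) (gram (Option (Fin K))) (some none)) 0 =
        mulAt (affIdeal (formC φ) (gram (Fin K)) (some none)) 0 + n * E * q ^ K)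
    (M4A : ∀ K E₀ φ, MSt (Fin K) q E₀ φ → ∀ n E, SE.Adm q n E → q + 2 ≤ E → ∀ α β : ℂ, α ≠ 0 → β ≠ 0 →
      mulAt (affIdeal (formS φ (SHA (Fin K) q n E α β)) (gram (Option (Fin K))) (some none)) 0 =
        mulAt (affIdeal (formC φ) (gram (Fin K)) (some none)) 0 + n * E * q ^ K)
    (hE : ∀ K m, 1 ≤ K → 1 ≤ m → m ≤ DD q K → Rz q (K + 2) ((q + 1) * q ^ K + m)) :
    ∀ N m, 1 ≤ N → 1 ≤ m → m ≤ DD q N → Rz q N m :=
  SE.all_big hq (Rz q) (rz_one q) (fun _ h1 h2 => rz_two h1 h2) (fun _ _ hk h => L_step (by omega) hk h)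
    (hU_of (by omega) (HU_of (by omega) hU) (HC_of (by omega)) (HF_of (by omega)))
    (fun K m h1 h2 h3 => hE K m h1 h2 h3)
    (hS_of (by omega) (HU_of (by omega) hU) (HC_of (by omega)) (HB_of (by omega) M4B) (HA_of (by omega) M4A))

end

end EY
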