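import Pool.Agent.helper5.EY.Big
import Pool.Agent.helper8.EY.SMulA
import Pool.Agent.helper81.EY.EStep

set_option autoImplicit false
set_option linter.unusedSectionVars false

/-!
# EY-Big2: all degrees are realized for `q ≥ 6`, from (U) with `Crit` and the step S, case B
-/

namespace EY

open MvPolynomial LinearAlgebra.Projectivization

/-- the statement of the module (U) for one `q` -/
def USt (q : ℕ) : Prop :=
  ∀ K E, 2 * E ≤ q ^ (K + 1) → ∃ φ : MvPolynomial (Option (Option (Fin K))) ℂ, St (Fin K) q E φ ∧ Crit φ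

/-- the statement of the step S, case B, for one `q` -/
def SB (q : ℕ) : Prop :=
  ∀ K E₀ (φ : MvPolynomial (Option (Option (Fin K))) ℂ), MSt (Fin K) q E₀ φ → ∀ n E, SE.Adm q n E → E ≤ q + 1 →
    ∀ α β : ℂ, α ≠ 0 → β ≠ 0 →
      mulAt (affIdeal (formS φ (SHB (Fin K) q n E α β)) (gram (Option (Fin K))) (some none)) 0 =
        mulAt (affIdeal (formC φ) (gram (Fin K)) (some none)) 0 + n * E * q ^ K

section

variable {q : ℕ}

theorem M4A_of : ∀ K E₀ (φ : MvPolynomial (Option (Option (Fin K))) ℂ), MSt (Fin K) q E₀ φ → ∀ n E,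
    SE.Adm q n E → q + 2 ≤ E → ∀ α β : ℂ, α ≠ 0 → β ≠ 0 →
      mulAt (affIdeal (formS φ (SHA (Fin K) q n E α β)) (gram (Option (Fin K))) (some none)) 0 =
        mulAt (affIdeal (formC φ) (gram (Fin K)) (some none)) 0 + n * E * q ^ K := by
  intro K E₀ φ hφ n E hA hE α β hα hβ
  obtain ⟨hn1, hn2, _, hE4, _⟩ := hA
  have h := S_multA φ n α β hφ hα hβ hn1 hn2 hE hE4
  rwa [Fintype.card_fin] at h

theorem USt.estep (hq : 2 ≤ q) (hU : USt q) :
    ∀ K m, 1 ≤ K → 1 ≤ m → m ≤ DD q K → Rz q (K + 2) ((q + 1) * q ^ K + m) :=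
  fun K m hK _ hm => estep_of hq (fun K E _ h => hU K E h) K m hK hm

theorem USt.st (hU : USt q) : ∀ K E, 2 * E ≤ q ^ (K + 1) → ∃ φ, St (Fin K) q E φ := by
  intro K E h
  obtain ⟨φ, h1, _⟩ := hU K E h
  exact ⟨φ, h1⟩

theorem rz_big' (hq : 6 ≤ q) (hU : USt q) (hB : SB q) : ∀ N m, 1 ≤ N → 1 ≤ m → m ≤ DD q N → Rz q N m :=
  rz_big hq hU.st hB M4A_of (hU.estep (by omega))

/-- class C: all degrees of the upper window -/
theorem USt.hC (hq : 2 ≤ q) (hU : USt q) : ∀ κ m, (q + 2) * q ^ κ ≤ 2 * m → m ≤ (q + 1) * q ^ κ →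
    Rz q (κ + 2) m :=
  hU_of hq (HU_of hq hU.st) (HC_of hq) (HF_of hq)

/-- the step S -/
theorem USt.hS (hq : 2 ≤ q) (hU : USt q) (hB : SB q) : ∀ κ n E m, SE.Adm q n E → (q + 2) * q ^ κ ≤ 2 * m →
    m ≤ (q + 1) * q ^ κ → Rz q (κ + 3) (m + n * E * q ^ κ) :=
  hS_of hq (HU_of hq hU.st) (HC_of hq) (HB_of hq hB) (HA_of hq M4A_of)

/-- the step L -/
theorem hL' (hq : 2 ≤ q) : ∀ k m, 1 ≤ k → Rz q k m → Rz q (k + 1) m := fun _ _ hk h => L_step hq hk h

end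

end EY
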