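import Pool.Agent.helper5.EY.UAll
import Pool.Agent.helper40.EY.SB
import Pool.Agent.helper52.D23.All

set_option autoImplicit false

/-!
# EY-BigAll: all degrees are realized for `q ≥ 6`
-/

namespace EY

open MvPolynomial LinearAlgebra.Projectivization

/-- the step S, case B -/
theorem sb_all {q : ℕ} (hq : 1 ≤ q) : SB q := by
  intro K E₀ φ hφ n E hA hE α β hα hβ
  obtain ⟨hn1, hn2, hE3, hE4, hE5⟩ := hA
  rcases hE5 with h | ⟨_, h1, h2⟩
  · omega
  · have h := hφ.multB hn1 hn2 hE3 hE h1 h2 hα hβ (MSt.mulAt_ne φ hq hφ)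
    rwa [Fintype.card_fin] at h

/-- **all degrees are realized for `q ≥ 6`** -/
theorem rz_ge_six {q : ℕ} (hq : 6 ≤ q) : ∀ N m, 1 ≤ N → 1 ≤ m → m ≤ DD q N → Rz q N m :=
  rz_big' hq (ust (by omega)) (sb_all (by omega))

end EY
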