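import Mathlib

set_option autoImplicit false
set_option linter.unusedSectionVars false

/-!
# EY-Det: cokernels of endomorphisms of free modules over `F[X]` and determinants

* `EY.smith_det`: Smith normal form of an endomorphism with nonzero determinant, with the determinant.
* `EY.finrank_quot_det`: `dim_F (M / φ M) = deg (det φ)`.
* `EY.finrank_quot_pow`: `dim_F (M / (φ M + X^N M))` is the order of `det φ` at `0` for `N` large.
* ring versions `EY.finrank_quot_span`, `EY.finrank_quot_span_pow`.
-/

namespace EY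

open Module Polynomial

section Smith

variable {R M : Type*} [CommRing R] [IsDomain R] [IsPrincipalIdealRing R] [AddCommGroup M] [Module R M]
variable {ι : Type*} [Fintype ι]

theorem smith_det [DecidableEq ι] (b : Basis ι R M) (φ : M →ₗ[R] M) (h : LinearMap.det φ ≠ 0) :
    ∃ (b' : Basis ι R M) (a : ι → R), (∀ i, a i ≠ 0) ∧
      (∀ x, x ∈ LinearMap.range φ ↔ ∀ i, a i ∣ b'.repr x i) ∧
      Associated (LinearMap.det φ) (∏ i, a i) := by
  have hfree : Module.Free R M := Module.Free.of_basis b
  have hfin : Module.Finite R M := Module.Finite.of_basis b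
  have hinj : Function.Injective φ := by
    rw [← LinearMap.ker_eq_bot]
    by_contra hne
    exact h (LinearMap.det_eq_zero_iff_ker_ne_bot.mpr hne)
  set N : Submodule R M := LinearMap.range φ with hN
  let e₁ : M ≃ₗ[R] N := LinearEquiv.ofInjective φ hinj
  have hrank : Module.finrank R N = Module.finrank R M := e₁.symm.finrank_eq
  obtain ⟨b', a, ab, hab⟩ := Submodule.exists_smith_normal_form_of_rank_eq b hrank
  have hane : ∀ i, a i ≠ 0 := by
    intro i hi
    apply ab.ne_zero i
    refine Subtype.coe_injective ?_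
    simp [hab, hi]
  refine ⟨b', a, hane, ?_, ?_⟩
  · intro x
    simp_rw [ab.mem_submodule_iff', hab]
    have h1 : ∀ (c : ι → R) (i), b'.repr (∑ j : ι, c j • a j • b' j) i = a i * c i := by
      intro c i
      simp only [← mul_smul, b'.repr_sum_self, mul_comm]
    constructor
    · rintro ⟨c, rfl⟩ i
      exact ⟨c i, h1 c i⟩
    · rintro ha
      choose c hc using ha
      exact ⟨c, b'.ext_elem fun i => Eq.trans (hc i) (h1 c i).symm⟩
  · let e : M ≃ₗ[R] M := (b'.equiv ab (Equiv.refl _)).trans e₁.symm
    have hcomp : ∀ x, (N.subtype ∘ₗ (b'.equiv ab (Equiv.refl _)).toLinearMap) x = φ (e x) := by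
      intro x
      have h2 : φ (e x) = (e₁ (e x) : M) := rfl
      rw [h2]
      simp [e]
    have h3 := LinearMap.associated_det_of_eq_comp e
      (N.subtype ∘ₗ (b'.equiv ab (Equiv.refl _)).toLinearMap) φ hcomp
    have h4 : LinearMap.det (N.subtype ∘ₗ (b'.equiv ab (Equiv.refl _)).toLinearMap) = ∏ i, a i := by
      rw [← LinearMap.det_toMatrix b', ← Matrix.det_diagonal]
      congr 1
      ext i j
      rw [LinearMap.toMatrix_apply]
      simp only [LinearMap.coe_comp, Function.comp_apply, LinearEquiv.coe_coe, Basis.equiv_apply,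
        Equiv.refl_apply, Submodule.subtype_apply, hab]
      rw [map_smul, Basis.repr_self, Matrix.diagonal_apply]
      by_cases hij : i = j
      · subst hij
        simp
      · rw [if_neg hij]
        simp [Ne.symm hij]
    rw [← h4]
    exact h3.symm

end Smith

section Quot

variable {F M : Type*} [Field F] [AddCommGroup M] [Module F[X] M] [Module F M] [IsScalarTower F F[X] M]
variable {ι : Type*} [Fintype ι]

/-- quotient by a diagonal submodule -/
theorem finrank_quot_diag (b : Basis ι F[X] M) (c : ι → F[X]) (hc : ∀ i, c i ≠ 0)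
    (N : Submodule F[X] M) (hN : ∀ x, x ∈ N ↔ ∀ i, c i ∣ b.repr x i) :
    Module.Finite F (M ⧸ N) ∧ Module.finrank F (M ⧸ N) = ∑ i, (c i).natDegree := by
  classical
  let N' : Submodule F[X] (ι → F[X]) :=
    Submodule.pi Set.univ fun i => Ideal.span ({c i} : Set F[X])
  have hmap : Submodule.map (b.equivFun : M →ₗ[F[X]] ι → F[X]) N = N' := by
    ext x
    simp only [N', Submodule.mem_map, Submodule.mem_pi, Set.mem_univ,
      forall_true_left, LinearEquiv.coe_coe, Basis.equivFun_apply]
    constructor
    · rintro ⟨y, hy, rfl⟩ i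
      exact Ideal.mem_span_singleton.mpr ((hN y).mp hy i)
    · intro hx
      refine ⟨∑ i, x i • b i, ?_, ?_⟩
      · rw [hN]
        intro i
        rw [b.repr_sum_self]
        exact Ideal.mem_span_singleton.mp (hx i)
      · rw [b.repr_sum_self]
  let e₁ : (M ⧸ N) ≃ₗ[F[X]] ((ι → F[X]) ⧸ N') := Submodule.Quotient.equiv N N' b.equivFun hmap
  let e₂ : ((ι → F[X]) ⧸ N') ≃ₗ[F[X]] (Π i, F[X] ⧸ Ideal.span ({c i} : Set F[X])) :=
    Submodule.quotientPi (show _ → Submodule F[X] F[X] from fun i => Ideal.span ({c i} : Set F[X]))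
  let e : (M ⧸ N) ≃ₗ[F] (Π i, F[X] ⧸ Ideal.span ({c i} : Set F[X])) :=
    (e₁.trans e₂).restrictScalars F
  have hfin : ∀ i, Module.Finite F (F[X] ⧸ Ideal.span ({c i} : Set F[X])) := fun i =>
    PowerBasis.finite (AdjoinRoot.powerBasis (hc i))
  have hrk : ∀ i, Module.finrank F (F[X] ⧸ Ideal.span ({c i} : Set F[X])) = (c i).natDegree := fun i =>
    (AdjoinRoot.powerBasis (hc i)).finrank
  refine ⟨Module.Finite.equiv e.symm, ?_⟩
  rw [e.finrank_eq, Module.finrank_pi_fintype]
  exact Finset.sum_congr rfl fun i _ => hrk i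

/-- the dimension of a cokernel is the degree of the determinant -/
theorem finrank_quot_det [DecidableEq ι] (b : Basis ι F[X] M) (φ : M →ₗ[F[X]] M)
    (h : LinearMap.det φ ≠ 0) :
    Module.Finite F (M ⧸ LinearMap.range φ) ∧
      Module.finrank F (M ⧸ LinearMap.range φ) = (LinearMap.det φ).natDegree := by
  obtain ⟨b', a, ha, hmem, hass⟩ := smith_det b φ h
  obtain ⟨h1, h2⟩ := finrank_quot_diag b' a ha _ hmem
  refine ⟨h1, ?_⟩
  rw [h2, natDegree_eq_of_degree_eq (degree_eq_degree_of_associated hass),
    natDegree_prod _ _ fun i _ => ha i]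

theorem rootMultiplicity_prod' (a : ι → F[X]) (ha : ∀ i, a i ≠ 0) (x : F) :
    (∏ i, a i).rootMultiplicity x = ∑ i, (a i).rootMultiplicity x := by
  classical
  have : ∀ s : Finset ι, (∏ i ∈ s, a i).rootMultiplicity x = ∑ i ∈ s, (a i).rootMultiplicity x := by
    intro s
    induction s using Finset.induction_on with
    | empty => simp
    | insert i s hi ih =>
      rw [Finset.prod_insert hi, Finset.sum_insert hi, rootMultiplicity_mul, ih]
      exact mul_ne_zero (ha i) (Finset.prod_ne_zero_iff.mpr fun j _ => ha j)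
  exact this Finset.univ

theorem rootMultiplicity_eq_of_associated {p q : F[X]} (h : Associated p q) (hp : p ≠ 0) (x : F) :
    p.rootMultiplicity x = q.rootMultiplicity x := by
  obtain ⟨u, rfl⟩ := h
  have hu : (u : F[X]) ≠ 0 := u.ne_zero
  rw [rootMultiplicity_mul (mul_ne_zero hp hu)]
  have : rootMultiplicity x (u : F[X]) = 0 := by
    rw [rootMultiplicity_eq_zero_iff]
    intro hr
    exfalso
    obtain ⟨c, hc, hcu⟩ := isUnit_iff.mp u.isUnit
    rw [← hcu, IsRoot, eval_C] at hr
    exact hc.ne_zero hr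
  omega

/-- the order of the determinant at `0` -/
theorem finrank_quot_pow [DecidableEq ι] (b : Basis ι F[X] M) (φ : M →ₗ[F[X]] M)
    (h : LinearMap.det φ ≠ 0) (n : ℕ) (hn : (LinearMap.det φ).rootMultiplicity 0 ≤ n)
    (N : Submodule F[X] M) (hN : ∀ x, x ∈ N ↔ ∃ y z, x = φ y + (X ^ n : F[X]) • z) :
    Module.Finite F (M ⧸ N) ∧
      Module.finrank F (M ⧸ N) = (LinearMap.det φ).rootMultiplicity 0 := by
  obtain ⟨b', a, ha, hmem, hass⟩ := smith_det b φ h
  have hsum : (LinearMap.det φ).rootMultiplicity 0 = ∑ i, (a i).rootMultiplicity 0 := by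
    rw [rootMultiplicity_eq_of_associated hass h, rootMultiplicity_prod' a ha]
  have hle : ∀ i, (a i).rootMultiplicity 0 ≤ n := fun i =>
    le_trans (Finset.single_le_sum (f := fun i => (a i).rootMultiplicity 0)
      (fun _ _ => Nat.zero_le _) (Finset.mem_univ i)) (hsum ▸ hn)
  have hX : (X : F[X]) - C 0 = X := by simp
  choose q hq hq' using fun i => exists_eq_pow_rootMultiplicity_mul_and_not_dvd (a i) (ha i) 0
  simp only [hX] at hq hq'
  have hcop : ∀ i, IsCoprime (q i) ((X : F[X]) ^ (n - (a i).rootMultiplicity 0)) := fun i =>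
    IsCoprime.pow_right ((irreducible_X.coprime_iff_not_dvd.mpr (hq' i)).symm)
  obtain ⟨h1, h2⟩ := finrank_quot_diag b' (fun i => (X : F[X]) ^ (a i).rootMultiplicity 0)
    (fun i => pow_ne_zero _ X_ne_zero) N (by
      intro x
      rw [hN]
      constructor
      · rintro ⟨y, z, rfl⟩ i
        rw [map_add, Finsupp.add_apply, map_smul, Finsupp.smul_apply, smul_eq_mul]
        refine dvd_add (dvd_trans ?_ ((hmem (φ y)).mp ⟨y, rfl⟩ i)) ?_
        · exact ⟨q i, hq i⟩
        · exact dvd_mul_of_dvd_left (pow_dvd_pow _ (hle i)) _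
      · intro hx
        choose c hc using hx
        choose u v huv using hcop
        have hkey : ∀ i, b'.repr x i = a i * (u i * c i) + X ^ n * (v i * c i) := by
          intro i
          have e1 : (X : F[X]) ^ n =
              X ^ (a i).rootMultiplicity 0 * X ^ (n - (a i).rootMultiplicity 0) := by
            rw [← pow_add, Nat.add_sub_cancel' (hle i)]
          rw [hc i, e1]
          nth_rewrite 2 [hq i]
          linear_combination (-(X : F[X]) ^ (a i).rootMultiplicity 0 * c i) * huv i
        have hy : (∑ i, (a i * (u i * c i)) • b' i) ∈ LinearMap.range φ := by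
          rw [hmem]
          intro i
          rw [b'.repr_sum_self]
          exact dvd_mul_right _ _
        obtain ⟨y, hy⟩ := hy
        refine ⟨y, ∑ i, (v i * c i) • b' i, b'.ext_elem fun i => ?_⟩
        rw [hy, map_add, Finsupp.add_apply, map_smul, Finsupp.smul_apply, smul_eq_mul,
          b'.repr_sum_self, b'.repr_sum_self, hkey i])
  refine ⟨h1, ?_⟩
  rw [h2, hsum]
  exact Finset.sum_congr rfl fun i _ => natDegree_X_pow _

end Quot

section Ring

variable {F A : Type*} [Field F] [CommRing A] [Algebra F[X] A] [Algebra F A] [IsScalarTower F F[X] A]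
variable [Module.Free F[X] A] [Module.Finite F[X] A]

theorem norm_dvd {R A : Type*} [CommRing R] [CommRing A] [Algebra R A] [Module.Free R A]
    [Module.Finite R A] [Nontrivial R] (g : A) : ∃ c : A, algebraMap R A (Algebra.norm R g) = g * c := by
  have h := LinearMap.aeval_self_charpoly (Algebra.lmul R A g)
  set χ := (Algebra.lmul R A g).charpoly with hχ
  have h1 : aeval g χ = 0 := by
    have h2 : Algebra.lmul R A (aeval g χ) = 0 := by
      rw [← Polynomial.aeval_algHom_apply]
      exact h
    have h3 := congrArg (fun f => f (1 : A)) h2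
    simpa using h3
  have h4 : Algebra.norm R g = (-1) ^ Module.finrank R A * χ.coeff 0 := by
    rw [Algebra.norm_apply]
    exact LinearMap.det_eq_sign_charpoly_coeff _
  have h5 : χ = X * χ.divX + C (χ.coeff 0) := (X_mul_divX_add χ).symm
  rw [h5, map_add, map_mul, aeval_X, aeval_C] at h1
  refine ⟨-((-1) ^ Module.finrank R A * aeval g χ.divX), ?_⟩
  rw [h4, map_mul, map_pow, map_neg, map_one]
  linear_combination (-1) ^ Module.finrank R A * h1

/-- `dim_F A/(g) = deg N(g)` -/
theorem finrank_quot_span (g : A) (h : Algebra.norm F[X] g ≠ 0) :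
    Module.Finite F (A ⧸ Ideal.span {g}) ∧
      Module.finrank F (A ⧸ Ideal.span {g}) = (Algebra.norm F[X] g).natDegree := by
  classical
  let b := Module.Free.chooseBasis F[X] A
  have h' : LinearMap.det (Algebra.lmul F[X] A g) ≠ 0 := h
  obtain ⟨h1, h2⟩ := finrank_quot_det b (Algebra.lmul F[X] A g) h'
  have hN : LinearMap.range (Algebra.lmul F[X] A g) = (Ideal.span {g}).restrictScalars F[X] := by
    ext x
    simp only [LinearMap.mem_range, Submodule.restrictScalars_mem, Ideal.mem_span_singleton']
    constructor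
    · rintro ⟨y, rfl⟩
      exact ⟨y, by simp [mul_comm]⟩
    · rintro ⟨y, rfl⟩
      exact ⟨y, by simp [mul_comm]⟩
  rw [hN] at h1 h2
  exact ⟨h1, h2⟩

/-- `dim_F A/(g, X^n)` is the order of `N(g)` at `0` for `n` large -/
theorem finrank_quot_span_pow (g : A) (h : Algebra.norm F[X] g ≠ 0) (n : ℕ)
    (hn : (Algebra.norm F[X] g).rootMultiplicity 0 ≤ n) :
    Module.Finite F (A ⧸ Ideal.span {g, algebraMap F[X] A (X ^ n)}) ∧
      Module.finrank F (A ⧸ Ideal.span {g, algebraMap F[X] A (X ^ n)}) =
        (Algebra.norm F[X] g).rootMultiplicity 0 := by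
  classical
  let b := Module.Free.chooseBasis F[X] A
  have h' : LinearMap.det (Algebra.lmul F[X] A g) ≠ 0 := h
  obtain ⟨h1, h2⟩ := finrank_quot_pow b (Algebra.lmul F[X] A g) h' n hn
    ((Ideal.span {g, algebraMap F[X] A (X ^ n)}).restrictScalars F[X]) (by
      intro x
      rw [Submodule.restrictScalars_mem, Ideal.mem_span_pair]
      constructor
      · rintro ⟨y, z, rfl⟩
        exact ⟨y, z, by simp [Algebra.smul_def, mul_comm]⟩
      · rintro ⟨y, z, rfl⟩
        exact ⟨y, z, by simp [Algebra.smul_def, mul_comm]⟩)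
  exact ⟨h1, h2⟩

end Ring

end EY
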