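import Pool.Agent.helper5.EY.Fin4
import Pool.Agent.helper2.EY.T1W
import Pool.Agent.helper81.EY.Q3
import Pool.Agent.helper65.EY.K3C
import Pool.Agent.helper65.EY.K3D
import Pool.Agent.helper26.SE.T5

set_option autoImplicit false
set_option linter.unusedSectionVars false

/-!
# EY-Fin3: all degrees are realized for `q = 3` and `q = 5`
-/

namespace EY

open MvPolynomial LinearAlgebra.Projectivization

/-- all degrees are realized for `q = 3`, from the value `5` in three variables -/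
theorem rz_three_of (h5 : Rz 3 3 5) : ∀ N m, 1 ≤ N → 1 ≤ m → m ≤ DD 3 N → Rz 3 N m :=
  have hU : USt 3 := ust (by norm_num)
  SE.all3 (Rz 3) (rz_one 3) (fun _ h1 h2 => rz_two h1 h2) (hL' (by norm_num)) (hU.hC (by norm_num))
    (hU.estep (by norm_num)) h5 rz_3_3_6 rz_3_3_7
    (fun κ m h1 h2 => T1S.t1_win (q := 3) (K := κ) (by norm_num) (hU.st κ) (by rw [pow_succ]; omega)
      (by rw [pow_succ]; omega))
    (fun κ m h1 h2 => w2_t2 (by norm_num) κ m (by rw [pow_succ]; omega) (by rw [pow_succ]; omega))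
    (fun κ m h1 h2 => w2_t3 κ m h1 h2)
    (fun κ m h1 h2 => hd3_81 (fun K E _ h => hU K E h) κ m h1 h2)

/-- all degrees are realized for `q = 5`, from the value `7` in three variables and the window `[6, 7]` -/
theorem rz_five_of (h7 : Rz 5 3 7)
    (ha : ∀ K m, 6 * 5 ^ (K + 1) ≤ m → m ≤ 7 * 5 ^ (K + 1) → Rz 5 (K + 4) m) :
    ∀ N m, 1 ≤ N → 1 ≤ m → m ≤ DD 5 N → Rz 5 N m :=
  have hU : USt 5 := ust (by norm_num)
  SE.all5 (Rz 5) (rz_one 5) (fun _ h1 h2 => rz_two h1 h2) (hL' (by norm_num)) (hU.hC (by norm_num))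
    (hU.estep (by norm_num)) (hU.hS (by norm_num) (sb_all (by norm_num)))
    (hT_of (HU_of (by norm_num) hU.st) (HC_of (by norm_num)))
    h7
    (fun κ m h0 h1 h2 => by
      obtain ⟨K, rfl⟩ : ∃ K, κ = K + 1 := ⟨κ - 1, by omega⟩
      exact ha K m h1 h2)
    (fun κ m h0 h1 h2 => by
      obtain ⟨K, rfl⟩ : ∃ K, κ = K + 1 := ⟨κ - 1, by omega⟩
      exact w2_t2 (by norm_num) K m h1 h2)

end EY
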