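import Pool.Agent.helper5.EY.BigAll
import Pool.Agent.helper50.EY.TRz
import Pool.Agent.helper50.EY.U0St
import Pool.Agent.helper60.LS.U0
import Pool.Agent.helper46.U.Final

set_option autoImplicit false
set_option linter.unusedSectionVars false

/-!
# EY-Fin4: all degrees are realized for `q = 4`
-/

namespace EY

open MvPolynomial LinearAlgebra.Projectivization

/-- T2: the window `[(q+2) q^κ, (q+3) q^κ]`, `κ = K + 1` -/
theorem w2_t2 {q : ℕ} (hq3 : 3 ≤ q) (K m : ℕ) (h1 : (q + 2) * q ^ (K + 1) ≤ m) (h2 : m ≤ (q + 3) * q ^ (K + 1)) :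
    Rz q (K + 4) m := by
  have e1 : (q + 2) * q ^ (K + 1) = q ^ (K + 2) + 2 * q ^ (K + 1) := by ring
  have e2 : (q + 3) * q ^ (K + 1) = q ^ (K + 2) + 3 * q ^ (K + 1) := by ring
  rw [e1] at h1
  rw [e2] at h2
  obtain ⟨P, hP⟩ := exists_U0P_h60 hq3 K (q ^ (K + 1) + q ^ (K + 2) + 2 * q ^ (K + 1) - m) (by omega)
  have h3 := t2_rz hq3 hP (fun t ht => u0_state hq3 hP ht)
  rw [Fintype.card_fin] at h3
  have h4 : q ^ (K + 1) + q ^ (K + 2) - (q ^ (K + 1) + q ^ (K + 2) + 2 * q ^ (K + 1) - m) + 2 * q ^ (K + 1) = m := by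
    have h5 : q ^ (K + 1) ≤ q ^ (K + 2) := Nat.pow_le_pow_right (by omega) (by omega)
    omega
  rwa [h4] at h3

/-- T3 for `q = 3`: the window `[17 * 3^K, 20 * 3^K]` -/
theorem w2_t3 (K m : ℕ) (h1 : 17 * 3 ^ K ≤ m) (h2 : m ≤ 20 * 3 ^ K) : Rz 3 (K + 4) m := by
  have e1 : 3 ^ (K + 1) = 3 * 3 ^ K := by ring
  have e2 : 3 ^ (K + 2) = 9 * 3 ^ K := by ring
  obtain ⟨P, hP⟩ := exists_U0P_h60 (le_refl 3) K (20 * 3 ^ K - m) (by rw [e1]; omega)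
  have h3 := t3_rz (le_refl 3) hP (fun t ht => u0_state (le_refl 3) hP ht)
  rw [Fintype.card_fin, e1, e2] at h3
  have h4 : 3 * 3 ^ K + 9 * 3 ^ K - (20 * 3 ^ K - m) + (2 * (3 * 3 ^ K) + 2 * 3 ^ K) = m := by omega
  rwa [h4] at h3

/-- T4 for `q = 4`: the window `[4.5 * 4^κ, 6.5 * 4^κ]`, `κ = K + 1` -/
theorem w2_t4 (K m : ℕ) (h1 : 9 * 4 ^ (K + 1) ≤ 2 * m) (h2 : 2 * m ≤ 13 * 4 ^ (K + 1)) : Rz 4 (K + 4) m := by
  have e1 : 4 ^ (K + 1) = 4 * 4 ^ K := by ring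
  have e2 : 4 ^ (K + 2) = 16 * 4 ^ K := by ring
  rw [e1] at h1 h2
  obtain ⟨φ, hφ⟩ := u4' K (26 * 4 ^ K - m) (by rw [e1]; omega)
  have h3 := t4_rz (by norm_num) hφ
  rw [Fintype.card_fin, e1, e2] at h3
  have h4 : 4 * 4 ^ K + 16 * 4 ^ K - (26 * 4 ^ K - m) + (4 * 4 ^ K + 2 * 4 ^ K) = m := by omega
  rwa [h4] at h3

/-- all degrees are realized for `q = 4`, from the value `6` in three variables -/
theorem rz_four_of (h6 : Rz 4 3 6) : ∀ N m, 1 ≤ N → 1 ≤ m → m ≤ DD 4 N → Rz 4 N m :=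
  have hU : USt 4 := ust (by norm_num)
  SE.all4 (Rz 4) (rz_one 4) (fun _ h1 h2 => rz_two h1 h2) (hL' (by norm_num)) (hU.hC (by norm_num))
    (hU.estep (by norm_num)) (hU.hS (by norm_num) (sb_all (by norm_num))) h6
    (fun κ m h0 h1 h2 => by
      obtain ⟨K, rfl⟩ : ∃ K, κ = K + 1 := ⟨κ - 1, by omega⟩
      exact w2_t4 K m (by omega) (by omega))
    (fun κ m h0 h1 h2 => by
      obtain ⟨K, rfl⟩ : ∃ K, κ = K + 1 := ⟨κ - 1, by omega⟩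
      exact w2_t2 (by norm_num) K m h1 h2)

end EY
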