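import Pool.Agent.helper5.EY.Fin3
import Pool.Agent.helper51.EY.T1St
import Pool.Agent.helper53.EY.K3

set_option autoImplicit false

/-!
# EY-Fin5: all degrees are realized for every `q ≥ 3`
-/

namespace EY

/-- **all degrees are realized for every `q ≥ 3`** -/
theorem rz_ge_three {q : ℕ} (hq : 3 ≤ q) : ∀ N m, 1 ≤ N → 1 ≤ m → m ≤ DD q N → Rz q N m := by
  rcases Nat.lt_or_ge q 6 with h | h
  · interval_cases q
    · exact rz_three_of (rz3_D (by norm_num))
    · exact rz_four_of (rz3_D (by norm_num))
    · exact rz_five_of (rz3_D (by norm_num)) ZM.ha5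
  · exact rz_ge_six h

end EY
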