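import Pool.Agent.helper5.EY.Asm
import Pool.Agent.helper35.EY.FinS
import Pool.Agent.helper65.CS.Main

set_option autoImplicit false
set_option linter.unusedSectionVars false

/-!
# EY-Glue: choice of the parameters of the step S, final theorem from the modules
-/

namespace EY

open MvPolynomial LinearAlgebra.Projectivization

theorem exists_good {B : Set ℂ} (hB : B.Finite) : ∃ α : ℂ, α ≠ 0 ∧ α ∉ B := by
  classical
  obtain ⟨α, hα⟩ := (hB.union (Set.finite_singleton (0 : ℂ))).infinite_compl.nonempty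
  exact ⟨α, fun h => hα (Or.inr h), fun h => hα (Or.inl h)⟩

section

variable {q : ℕ}

theorem HB_of (hq : 2 ≤ q)
    (M4B : ∀ K E₀ φ, MSt (Fin K) q E₀ φ → ∀ n E, SE.Adm q n E → E ≤ q + 1 → ∀ α β : ℂ, α ≠ 0 → β ≠ 0 →
      mulAt (affIdeal (formS φ (SHB (Fin K) q n E α β)) (gram (Option (Fin K))) (some none)) 0 =
        mulAt (affIdeal (formC φ) (gram (Fin K)) (some none)) 0 + n * E * q ^ K) :
    ∀ K E₀ φ, MSt (Fin K) q E₀ φ → ∀ n E, SE.Adm q n E → E ≤ q + 1 → ∃ α β : ℂ,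
      mulAt (affIdeal (formS φ (SHB (Fin K) q n E α β)) (gram (Option (Fin K))) (some none)) 0 =
        mulAt (affIdeal (formC φ) (gram (Fin K)) (some none)) 0 + n * E * q ^ K ∧
      ProjFin {x | IsEig (formS φ (SHB (Fin K) q n E α β)) (gram (Option (Fin K))) x} := by
  intro K E₀ φ hφ n E hA hE
  have hA' := hA
  obtain ⟨hn1, hn2, hE3, hE4, hE5⟩ := hA'
  have hfin := hφ.finB hq hn2 hE3 hE 1 (by
    intro α hα
    rw [M4B K E₀ φ hφ n E hA hE α 1 hα one_ne_zero]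
    have : 0 < n * E * q ^ K := by positivity
    omega)
  obtain ⟨α, hα, hα'⟩ := exists_good hfin
  exact ⟨α, 1, M4B K E₀ φ hφ n E hA hE α 1 hα one_ne_zero, by
    by_contra h
    exact hα' h⟩

theorem HA_of (hq : 2 ≤ q)
    (M4A : ∀ K E₀ φ, MSt (Fin K) q E₀ φ → ∀ n E, SE.Adm q n E → q + 2 ≤ E → ∀ α β : ℂ, α ≠ 0 → β ≠ 0 →
      mulAt (affIdeal (formS φ (SHA (Fin K) q n E α β)) (gram (Option (Fin K))) (some none)) 0 =
        mulAt (affIdeal (formC φ) (gram (Fin K)) (some none)) 0 + n * E * q ^ K) :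
    ∀ K E₀ φ, MSt (Fin K) q E₀ φ → ∀ n E, SE.Adm q n E → q + 2 ≤ E → ∃ α β : ℂ,
      mulAt (affIdeal (formS φ (SHA (Fin K) q n E α β)) (gram (Option (Fin K))) (some none)) 0 =
        mulAt (affIdeal (formC φ) (gram (Fin K)) (some none)) 0 + n * E * q ^ K ∧
      ProjFin {x | IsEig (formS φ (SHA (Fin K) q n E α β)) (gram (Option (Fin K))) x} := by
  intro K E₀ φ hφ n E hA hE
  have hA' := hA
  obtain ⟨hn1, hn2, hE3, hE4, hE5⟩ := hA'
  have hfin := hφ.finA hq hn2 hE hE4 1 (by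
    intro α hα
    rw [M4A K E₀ φ hφ n E hA hE α 1 hα one_ne_zero]
    have : 0 < n * E * q ^ K := by positivity
    omega)
  obtain ⟨α, hα, hα'⟩ := exists_good hfin
  exact ⟨α, 1, M4A K E₀ φ hφ n E hA hE α 1 hα one_ne_zero, by
    by_contra h
    exact hα' h⟩

/-- the answer to Q1 from the realization of all degrees -/
theorem q1_iff {n : ℕ} (hq : 2 ≤ q) (hn : 1 ≤ n)
    (hR : ∀ m, 1 ≤ m → m ≤ DD q (n + 1) → Rz q (n + 1) m) (m : ℕ) :
    (∃ f : MvPolynomial (Fin (n + 1)) ℂ, f.IsHomogeneous (q + 1) ∧ (eigenpoints f).Finite ∧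
      (∃ P ∈ eigenpoints f, ¬ IsReduced (localRing f P)) ∧ ∃ P ∈ eigenpoints f, mult f P = m) ↔
      1 ≤ m ∧ m ≤ DD q (n + 1) :=
  final_iff hq hn hR (CS.hCS hq) m

end

end EY
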