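import Pool.Agent.helper5.EY.Defs
import Pool.Agent.helper5.EY.Det

set_option autoImplicit false
set_option linter.unusedSectionVars false

/-!
# EY-Loc: computing local multiplicities
-/

namespace EY

open MvPolynomial

section General

variable {k R : Type*} [Field k] [CommRing R] [Algebra k R]

theorem exists_algEquiv (M : Submonoid R) (I J : Ideal R)
    (hu : ∀ s ∈ M, IsUnit (Ideal.Quotient.mk J s)) (hIJ : I ≤ J)
    (hj : ∀ x ∈ J, ∃ s ∈ M, s * x ∈ I) :
    Nonempty ((R ⧸ J) ≃ₐ[k] (Localization M ⧸ I.map (algebraMap R (Localization M)))) := by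
  set S := Localization M
  set f : R →ₐ[k] (S ⧸ I.map (algebraMap R S)) :=
    (Ideal.Quotient.mkₐ k (I.map (algebraMap R S))).comp (IsScalarTower.toAlgHom k R S) with hf
  have hmem : ∀ x, algebraMap R S x ∈ I.map (algebraMap R S) ↔ x ∈ J := by
    intro x
    rw [IsLocalization.algebraMap_mem_map_algebraMap_iff M]
    constructor
    · rintro ⟨s, hs, hsx⟩
      have h1 := hIJ hsx
      rw [← Ideal.Quotient.eq_zero_iff_mem, map_mul] at h1
      rw [← Ideal.Quotient.eq_zero_iff_mem]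
      exact (hu s hs).mul_right_eq_zero.mp h1
    · exact fun hx => hj x hx
  have hker : RingHom.ker f = J := by
    ext x
    rw [RingHom.mem_ker, ← hmem x]
    exact Ideal.Quotient.eq_zero_iff_mem
  have hsurj : Function.Surjective f := by
    intro z
    obtain ⟨y, rfl⟩ := Ideal.Quotient.mk_surjective z
    obtain ⟨r, s, rfl⟩ := IsLocalization.exists_mk'_eq M y
    obtain ⟨t, ht⟩ := (hu s.1 s.2).exists_right_inv
    obtain ⟨t, rfl⟩ := Ideal.Quotient.mk_surjective t
    refine ⟨r * t, ?_⟩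
    change Ideal.Quotient.mk _ (algebraMap R S (r * t)) = Ideal.Quotient.mk _ (IsLocalization.mk' S r s)
    rw [Ideal.Quotient.eq]
    have h1 : algebraMap R S (r * t) - IsLocalization.mk' S r s =
        IsLocalization.mk' S (r * (t * s - 1)) s := by
      apply (IsLocalization.map_units S s).mul_right_cancel
      rw [sub_mul, IsLocalization.mk'_spec, IsLocalization.mk'_spec, ← map_mul, ← map_sub]
      congr 1
      ring
    rw [h1, IsLocalization.mk'_mem_map_algebraMap_iff M]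
    apply hj
    apply Ideal.mul_mem_left
    rw [← Ideal.Quotient.eq_zero_iff_mem, map_sub, map_mul, map_one, mul_comm, ht, sub_self]
  exact ⟨(Ideal.quotientEquivAlgOfEq k hker.symm).trans (Ideal.quotientKerAlgEquivOfSurjective hsurj)⟩

end General

section Poly

variable {σ : Type*}

theorem mem_pt {p : σ → ℂ} {f : MvPolynomial σ ℂ} : f ∈ pt p ↔ eval p f = 0 := RingHom.mem_ker

theorem isUnit_of_zero_unique [Finite σ] (J : Ideal (MvPolynomial σ ℂ)) (p : σ → ℂ)
    (hJ : ∀ q : σ → ℂ, (∀ f ∈ J, eval q f = 0) → q = p) (s : MvPolynomial σ ℂ)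
    (hs : eval p s ≠ 0) : IsUnit (Ideal.Quotient.mk J s) := by
  have htop : J ⊔ Ideal.span {s} = ⊤ := by
    by_contra hne
    obtain ⟨m, hm, hle⟩ := Ideal.exists_le_maximal _ hne
    obtain ⟨x, hx⟩ := isMaximal_iff_eq_vanishingIdeal_singleton.mp hm
    have hmem : ∀ f ∈ J ⊔ Ideal.span {s}, eval x f = 0 := by
      intro f hf
      have h1 := hle hf
      rw [hx, mem_vanishingIdeal_singleton_iff] at h1
      simpa [aeval_eq_eval] using h1
    have h1 : x = p := hJ x fun f hf => hmem f (Ideal.mem_sup_left hf)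
    have h2 := hmem s (Ideal.mem_sup_right (Ideal.subset_span rfl))
    rw [h1] at h2
    exact hs h2
  have h1 : (1 : MvPolynomial σ ℂ) ∈ J ⊔ Ideal.span {s} := by rw [htop]; trivial
  obtain ⟨j, hj, t, ht, hjt⟩ := Submodule.mem_sup.mp h1
  obtain ⟨a, rfl⟩ := Ideal.mem_span_singleton'.mp ht
  refine IsUnit.of_mul_eq_one (Ideal.Quotient.mk J a) ?_
  rw [← map_mul, ← map_one (Ideal.Quotient.mk J), ← hjt, map_add,
    Ideal.Quotient.eq_zero_iff_mem.mpr hj, zero_add, mul_comm]

/-- the local ring at `p` is `ℂ[x]/(I + (b^n))` -/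
theorem mulAt_algEquiv [Finite σ] (I : Ideal (MvPolynomial σ ℂ)) (p : σ → ℂ) (b : MvPolynomial σ ℂ)
    (hb : eval p b = 0)
    (hq : ∀ q : σ → ℂ, (∀ f ∈ I, eval q f = 0) → eval q b = 0 → q = p)
    (D : Polynomial ℂ) (hD0 : D ≠ 0) (hD : Polynomial.aeval b D ∈ I) (n : ℕ)
    (hn : D.rootMultiplicity 0 ≤ n) :
    Nonempty ((MvPolynomial σ ℂ ⧸ (I ⊔ Ideal.span {b ^ n})) ≃ₐ[ℂ]
      (Localization.AtPrime (pt p) ⧸
        I.map (algebraMap (MvPolynomial σ ℂ) (Localization.AtPrime (pt p))))) := by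
  apply exists_algEquiv
  · intro s hs
    apply isUnit_of_zero_unique _ p
    · intro q hq'
      apply hq q fun f hf => hq' f (Ideal.mem_sup_left hf)
      have h1 := hq' (b ^ n) (Ideal.mem_sup_right (Ideal.subset_span rfl))
      rw [map_pow] at h1
      exact eq_zero_of_pow_eq_zero h1
    · exact fun h => hs (mem_pt.mpr h)
  · exact le_sup_left
  · intro x hx
    obtain ⟨i, hi, t, ht, rfl⟩ := Submodule.mem_sup.mp hx
    obtain ⟨c, rfl⟩ := Ideal.mem_span_singleton'.mp ht
    obtain ⟨ψ, hψ, hψ'⟩ := Polynomial.exists_eq_pow_rootMultiplicity_mul_and_not_dvd D hD0 0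
    have hX : (Polynomial.X : Polynomial ℂ) - Polynomial.C 0 = Polynomial.X := by simp
    rw [hX] at hψ hψ'
    refine ⟨Polynomial.aeval b ψ, ?_, ?_⟩
    · intro hmem
      have h1 : eval p (Polynomial.aeval b ψ) = 0 := mem_pt.mp hmem
      have h2 : eval p (Polynomial.aeval b ψ) = ψ.eval 0 := by
        have h3 := Polynomial.hom_eval₂ ψ (algebraMap ℂ (MvPolynomial σ ℂ)) (eval p) b
        rw [← Polynomial.aeval_def, hb] at h3
        rw [h3]
        have h4 : (eval p).comp (algebraMap ℂ (MvPolynomial σ ℂ)) = RingHom.id ℂ := by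
          ext z
          · simp
        rw [h4]
        rfl
      rw [h2] at h1
      exact hψ' (Polynomial.X_dvd_iff.mpr (by rw [Polynomial.coeff_zero_eq_eval_zero, h1]))
    · rw [mul_add]
      refine I.add_mem (I.mul_mem_left _ hi) ?_
      have h5 : Polynomial.aeval b D = b ^ D.rootMultiplicity 0 * Polynomial.aeval b ψ := by
        conv_lhs => rw [hψ]
        rw [map_mul, map_pow, Polynomial.aeval_X]
      have h6 : Polynomial.aeval b ψ * (c * b ^ n) =
          (c * b ^ (n - D.rootMultiplicity 0)) * Polynomial.aeval b D := by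
        rw [h5]
        have h7 : b ^ n = b ^ (n - D.rootMultiplicity 0) * b ^ D.rootMultiplicity 0 := by
          rw [← pow_add, Nat.sub_add_cancel hn]
        rw [h7]
        ring
      rw [h6]
      exact I.mul_mem_left _ hD

/-- L1 -/
theorem mulAt_eq [Finite σ] (I : Ideal (MvPolynomial σ ℂ)) (p : σ → ℂ) (b : MvPolynomial σ ℂ)
    (hb : eval p b = 0)
    (hq : ∀ q : σ → ℂ, (∀ f ∈ I, eval q f = 0) → eval q b = 0 → q = p)
    (D : Polynomial ℂ) (hD0 : D ≠ 0) (hD : Polynomial.aeval b D ∈ I) (n : ℕ)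
    (hn : D.rootMultiplicity 0 ≤ n) :
    mulAt I p = Module.finrank ℂ (MvPolynomial σ ℂ ⧸ (I ⊔ Ideal.span {b ^ n})) := by
  obtain ⟨e⟩ := mulAt_algEquiv I p b hb hq D hD0 hD n hn
  exact e.toLinearEquiv.finrank_eq.symm

variable {A : Type*} [CommRing A] [Algebra (Polynomial ℂ) A] [Algebra ℂ A]
  [IsScalarTower ℂ (Polynomial ℂ) A] [Module.Free (Polynomial ℂ) A] [Module.Finite (Polynomial ℂ) A]

/-- L2: if `ℂ[x]/I = A/(g)` with `A` a finite free `ℂ[t]`-algebra, `t` corresponding to `b`, and `p` is the only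
zero of `I` with `b = 0`, then the length of the local ring at `p` is the order at `0` of the norm of `g`. -/
theorem mulAt_eq_rootMultiplicity [Finite σ] (π : MvPolynomial σ ℂ →ₐ[ℂ] A)
    (hπ : Function.Surjective π) (g : A) (hg : Algebra.norm (Polynomial ℂ) g ≠ 0)
    (p : σ → ℂ) (b : MvPolynomial σ ℂ) (hb : eval p b = 0)
    (hπb : π b = algebraMap (Polynomial ℂ) A Polynomial.X)
    (hq : ∀ q : σ → ℂ, (∀ f, π f ∈ Ideal.span {g} → eval q f = 0) → eval q b = 0 → q = p) :
    mulAt (Ideal.comap π (Ideal.span {g})) p =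
      (Algebra.norm (Polynomial ℂ) g).rootMultiplicity 0 := by
  set D := Algebra.norm (Polynomial ℂ) g with hDdef
  set n := D.rootMultiplicity 0 with hn
  have hπD : π (Polynomial.aeval b D) = algebraMap (Polynomial ℂ) A D := by
    rw [← Polynomial.aeval_algHom_apply, hπb]
    have h1 : ((IsScalarTower.toAlgHom ℂ (Polynomial ℂ) A) : Polynomial ℂ →ₐ[ℂ] A) D =
        Polynomial.aeval (algebraMap (Polynomial ℂ) A Polynomial.X) D := by
      have h2 := Polynomial.aeval_algHom_apply (IsScalarTower.toAlgHom ℂ (Polynomial ℂ) A)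
        (Polynomial.X : Polynomial ℂ) D
      rw [Polynomial.aeval_X_left_apply] at h2
      exact h2.symm
    exact h1.symm
  have hDmem : Polynomial.aeval b D ∈ Ideal.comap π (Ideal.span {g}) := by
    rw [Ideal.mem_comap, hπD, Ideal.mem_span_singleton]
    exact norm_dvd g
  rw [mulAt_eq (Ideal.comap π (Ideal.span {g})) p b hb (fun q hq1 hq2 => hq q (fun f hf => hq1 f hf) hq2)
    D hg hDmem n le_rfl]
  obtain ⟨-, h2⟩ := finrank_quot_span_pow (F := ℂ) g hg n le_rfl
  refine Eq.trans ?_ h2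
  set J := Ideal.span {g, algebraMap (Polynomial ℂ) A (Polynomial.X ^ n)} with hJ
  set ρ : MvPolynomial σ ℂ →ₐ[ℂ] A ⧸ J := (Ideal.Quotient.mkₐ ℂ J).comp π with hρ
  have hρs : Function.Surjective ρ := (Ideal.Quotient.mkₐ_surjective ℂ J).comp hπ
  have hker : RingHom.ker ρ = Ideal.comap π (Ideal.span {g}) ⊔ Ideal.span {b ^ n} := by
    ext x
    rw [RingHom.mem_ker]
    have h3 : ρ x = Ideal.Quotient.mk J (π x) := rfl
    rw [h3, Ideal.Quotient.eq_zero_iff_mem, hJ, Ideal.mem_span_pair]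
    constructor
    · rintro ⟨y, z, hyz⟩
      obtain ⟨z', rfl⟩ := hπ z
      have h4 : x = (x - z' * b ^ n) + z' * b ^ n := by ring
      rw [h4]
      refine Ideal.add_mem _ (Ideal.mem_sup_left ?_)
        (Ideal.mem_sup_right (Ideal.mul_mem_left _ _ (Ideal.subset_span rfl)))
      rw [Ideal.mem_comap, map_sub, map_mul, map_pow, hπb, ← hyz, Ideal.mem_span_singleton]
      refine ⟨y, ?_⟩
      rw [map_pow]
      ring
    · intro hx
      obtain ⟨i, hi, t, ht, rfl⟩ := Submodule.mem_sup.mp hx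
      obtain ⟨c, rfl⟩ := Ideal.mem_span_singleton'.mp ht
      rw [Ideal.mem_comap, Ideal.mem_span_singleton'] at hi
      obtain ⟨y, hy⟩ := hi
      refine ⟨y, π c, ?_⟩
      rw [map_add, map_mul, map_pow, map_pow, hπb, hy]
  have e := (Ideal.quotientEquivAlgOfEq ℂ hker.symm).trans
    (Ideal.quotientKerAlgEquivOfSurjective hρs)
  exact e.toLinearEquiv.finrank_eq

theorem finite_quot_comap (π : MvPolynomial σ ℂ →ₐ[ℂ] A)
    (hπ : Function.Surjective π) (g : A) (hg : Algebra.norm (Polynomial ℂ) g ≠ 0) :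
    Module.Finite ℂ (MvPolynomial σ ℂ ⧸ (Ideal.comap π (Ideal.span {g}))) := by
  obtain ⟨h1, -⟩ := finrank_quot_span (F := ℂ) g hg
  set J := Ideal.span {g} with hJ
  set ρ : MvPolynomial σ ℂ →ₐ[ℂ] A ⧸ J := (Ideal.Quotient.mkₐ ℂ J).comp π with hρ
  have hρs : Function.Surjective ρ := (Ideal.Quotient.mkₐ_surjective ℂ J).comp hπ
  have hker : RingHom.ker ρ = Ideal.comap π J := by
    ext x
    rw [RingHom.mem_ker]
    exact Ideal.Quotient.eq_zero_iff_mem
  have e := (Ideal.quotientEquivAlgOfEq ℂ hker.symm).trans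
    (Ideal.quotientKerAlgEquivOfSurjective hρs)
  exact Module.Finite.equiv e.toLinearEquiv.symm

/-- finitely many zeros -/
theorem finite_zeros [Finite σ] (I : Ideal (MvPolynomial σ ℂ))
    (h : Module.Finite ℂ (MvPolynomial σ ℂ ⧸ I)) :
    {q : σ → ℂ | ∀ f ∈ I, eval q f = 0}.Finite := by
  classical
  have hint : ∀ i : σ, ∃ P : Polynomial ℂ, P ≠ 0 ∧ Polynomial.aeval (X i : MvPolynomial σ ℂ) P ∈ I := by
    intro i
    obtain ⟨P, hP, hP'⟩ := Algebra.IsIntegral.isIntegral (R := ℂ) (Ideal.Quotient.mk I (X i))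
    refine ⟨P, hP.ne_zero, ?_⟩
    rw [← Ideal.Quotient.eq_zero_iff_mem]
    have h1 := Polynomial.aeval_algHom_apply (Ideal.Quotient.mkₐ ℂ I) (X i : MvPolynomial σ ℂ) P
    have h2 : Polynomial.aeval ((Ideal.Quotient.mkₐ ℂ I) (X i)) P = 0 := hP'
    rw [h2] at h1
    exact h1.symm
  choose P hP hP' using hint
  refine (Set.Finite.pi' fun i => (P i).rootSet_finite ℂ).subset ?_
  intro q hq i
  rw [Polynomial.mem_rootSet]
  refine ⟨hP i, ?_⟩
  have h3 := hq _ (hP' i)
  have h4 : eval q (Polynomial.aeval (X i : MvPolynomial σ ℂ) (P i)) = Polynomial.aeval (q i) (P i) := by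
    have h5 := Polynomial.aeval_algHom_apply (aeval q : MvPolynomial σ ℂ →ₐ[ℂ] ℂ)
      (X i : MvPolynomial σ ℂ) (P i)
    rw [aeval_X] at h5
    rw [h5, aeval_eq_eval]
  rw [← h4]
  exact h3

end Poly

end EY
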