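import Pool.Agent.helper5.EY.St

/-!
# EY-RealT: replaced by `EY/St.lean` (`rz_of_form`)
-/
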