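import Pool.Agent.helper5.EY.Congr
import Pool.Agent.helper62.EIG.FPoly

set_option autoImplicit false
set_option linter.unusedSectionVars false

/-!
# EY-Tr: from a form with a nondegenerate quadratic form `x.Sx` to orthonormal coordinates

Coordinates `x = (x_none, x_some k)`; chart `x_none = 1`; `w` is the index with `(S x)_w = x_none` (so the base point
`e_none` is isotropic if `w ≠ none` and non-isotropic if `w = none`).
-/

namespace EY

open MvPolynomial LinearAlgebra.Projectivization

section Defs

variable {κ' : Type} [Fintype κ'] [DecidableEq κ']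

/-- put `x_none = 1` -/
noncomputable def dehom : MvPolynomial (Option κ') ℂ →ₐ[ℂ] MvPolynomial κ' ℂ :=
  aeval fun o => o.elim 1 X

/-- the `j`-th coordinate of `S x` -/
noncomputable def sl {κ : Type} [Fintype κ] (S : Matrix κ κ ℂ) (j : κ) : MvPolynomial κ ℂ :=
  ∑ k, C (S j k) * X k

/-- the ideal of the eigenscheme of `f` with respect to the quadratic form `x.Sx` in the chart `x_none = 1`:
`∂_j f = (S x)_j ∂_w f` for all `j` -/
noncomputable def affIdeal (f : MvPolynomial (Option κ') ℂ) (S : Matrix (Option κ') (Option κ') ℂ)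
    (w : Option κ') : Ideal (MvPolynomial κ' ℂ) :=
  Ideal.span (Set.range fun j => dehom (pderiv j f - sl S j * pderiv w f))

end Defs

section Linear

variable {κ : Type} [Fintype κ] [DecidableEq κ] {N : ℕ}

/-- pull back of polynomials along the linear map with matrix `a` -/
noncomputable def lsub {σ τ : Type} [Fintype τ] (a : σ → τ → ℂ) : MvPolynomial σ ℂ →ₐ[ℂ] MvPolynomial τ ℂ :=
  aeval fun i => ∑ k, C (a i k) * X k

theorem lsub_X {σ τ : Type} [Fintype τ] (a : σ → τ → ℂ) (i : σ) :
    lsub a (X i) = ∑ k, C (a i k) * X k := aeval_X _ _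

theorem eval_lsub {σ τ : Type} [Fintype τ] (a : σ → τ → ℂ) (x : τ → ℂ) (g : MvPolynomial σ ℂ) :
    eval x (lsub a g) = eval (fun i => ∑ k, a i k * x k) g := by
  have h : (eval x).comp (lsub a : MvPolynomial σ ℂ →+* MvPolynomial τ ℂ) =
      eval (fun i => ∑ k, a i k * x k) := by
    apply MvPolynomial.ringHom_ext
    · intro c
      simp [lsub]
    · intro i
      simp [lsub]
  exact RingHom.congr_fun h g

theorem lsub_comp {σ τ : Type} [Fintype σ] [Fintype τ] [DecidableEq σ] (a : σ → τ → ℂ) (b : τ → σ → ℂ)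
    (h : ∀ i j, ∑ k, a i k * b k j = if i = j then 1 else 0) (g : MvPolynomial σ ℂ) :
    lsub b (lsub a g) = g := by
  have h1 : (lsub b).comp (lsub a) = AlgHom.id ℂ (MvPolynomial σ ℂ) := by
    apply MvPolynomial.algHom_ext
    intro i
    rw [AlgHom.comp_apply, lsub_X, map_sum]
    simp only [map_mul, lsub_X, AlgHom.id_apply]
    have h2 : ∀ k, lsub b (C (a i k)) = C (a i k) := fun k => (lsub b).commutes _
    simp only [h2, Finset.mul_sum, ← mul_assoc, ← C_mul]
    rw [Finset.sum_comm]
    have h3 : ∀ j, ∑ k, C (a i k * b k j) * X j = (if i = j then (X j : MvPolynomial σ ℂ) else 0) := by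
      intro j
      rw [← Finset.sum_mul, ← map_sum, h i j]
      by_cases hij : i = j
      · simp [hij]
      · simp [hij]
    simp only [h3]
    simp
  exact AlgHom.congr_fun h1 g

theorem pderiv_lsub {σ τ : Type} [Fintype σ] [Fintype τ] [DecidableEq σ] [DecidableEq τ]
    (a : σ → τ → ℂ) (g : MvPolynomial σ ℂ) (k : τ) :
    pderiv k (lsub a g) = ∑ i, C (a i k) * lsub a (pderiv i g) := by
  induction g using MvPolynomial.induction_on with
  | C c =>
    have h2 : lsub a (C c) = C c := (lsub a).commutes c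
    simp [h2]
  | add p q hp hq =>
    simp only [map_add, hp, hq, mul_add, Finset.sum_add_distrib]
  | mul_X p i hp =>
    rw [map_mul, Derivation.leibniz, hp, lsub_X, map_sum]
    have h1 : ∀ j, pderiv k (C (a i j) * X j : MvPolynomial τ ℂ) = if j = k then C (a i j) else 0 := by
      intro j
      rw [pderiv_C_mul, pderiv_X]
      by_cases h : j = k
      · subst h; simp
      · simp [h]
    have h2 : ∀ j, pderiv j (p * X i : MvPolynomial σ ℂ) = X i * pderiv j p + if i = j then p else 0 := by
      intro j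
      rw [Derivation.leibniz, pderiv_X, smul_eq_mul, smul_eq_mul]
      by_cases h : i = j
      · subst h; simp; ring
      · simp [h]
    simp only [h1, h2, map_add, map_mul, mul_add, Finset.sum_add_distrib, smul_eq_mul,
      Finset.sum_ite_eq', Finset.mem_univ, if_true]
    have h3 : ∑ j, C (a j k) * lsub a (if i = j then p else 0) = C (a i k) * lsub a p := by
      rw [Finset.sum_eq_single i]
      · simp
      · intro j _ hj
        rw [if_neg (Ne.symm hj), map_zero, mul_zero]
      · intro h; exact absurd (Finset.mem_univ i) h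
    rw [h3, lsub_X, Finset.mul_sum, add_comm]
    congr 1
    · refine Finset.sum_congr rfl fun j _ => ?_
      ring
    · ring

theorem lsub_isHomogeneous {σ τ : Type} [Fintype τ] (a : σ → τ → ℂ) {g : MvPolynomial σ ℂ} {d : ℕ}
    (hg : g.IsHomogeneous d) : (lsub a g).IsHomogeneous d := by
  have h1 := hg.aeval (fun i => ∑ k, C (a i k) * X k) (n := 1) (fun i => by
    refine IsHomogeneous.sum _ _ _ fun k _ => ?_
    have := (isHomogeneous_C τ (a i k)).mul (isHomogeneous_X ℂ k)
    simpa using this)
  rw [one_mul] at h1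
  exact h1

end Linear

section Transfer

variable {κ' : Type} [Fintype κ'] [DecidableEq κ'] {N : ℕ}

/-- data of a linear change of coordinates `y = a x`, `x = b y`, with `x.Sx = y.y` -/
structure Chg {κ : Type} [Fintype κ] [DecidableEq κ] {N : ℕ} (S : Matrix κ κ ℂ) (a : Fin N → κ → ℂ)
    (b : κ → Fin N → ℂ) : Prop where
  ab : ∀ i j, ∑ k, a i k * b k j = if i = j then 1 else 0
  ba : ∀ k l, ∑ i, b k i * a i l = if k = l then 1 else 0
  sq : ∀ j k, S j k = ∑ i, a i j * a i k

theorem exists_chg {κ : Type} [Fintype κ] [DecidableEq κ] {N : ℕ} (hN : Fintype.card κ = N)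
    (S : Matrix κ κ ℂ) (hS : S.IsSymm) (hdet : S.det ≠ 0) :
    ∃ (a : Fin N → κ → ℂ) (b : κ → Fin N → ℂ), Chg S a b := by
  have hlin : EIG.Lin (fun x : EIG.Vc κ => S.mulVec x) :=
    ⟨fun x y => Matrix.mulVec_add _ _ _, fun c x => Matrix.mulVec_smul _ _ _⟩
  have hdot : ∀ x y : EIG.Vc κ, EIG.dot x y = dotProduct x y := fun x y => rfl
  have hsymm : ∀ x y : EIG.Vc κ, EIG.dot (S.mulVec x) y = EIG.dot (S.mulVec y) x := by
    intro x y
    rw [hdot, hdot, dotProduct_comm, Matrix.dotProduct_mulVec, ← Matrix.mulVec_transpose, hS.eq]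
  have hinj : ∀ x : EIG.Vc κ, S.mulVec x = 0 → x = 0 := by
    intro x hx
    by_contra hne
    exact hdet (Matrix.exists_mulVec_eq_zero_iff.mp ⟨x, hne, hx⟩)
  obtain ⟨A, hA⟩ := EIG.exists_sqrt hlin hsymm hinj hN
  have hexp : ∀ x i, A x i = ∑ k, A (Pi.single k 1) i * x k := by
    intro x i
    have h1 : x = ∑ k, x k • (Pi.single k 1 : κ → ℂ) := by
      funext k
      rw [Finset.sum_apply, Finset.sum_eq_single k]
      · simp
      · intro j _ hj
        rw [Pi.smul_apply, Pi.single_eq_of_ne (Ne.symm hj), smul_zero]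
      · intro h; exact absurd (Finset.mem_univ k) h
    conv_lhs => rw [h1, map_sum, Finset.sum_apply]
    exact Finset.sum_congr rfl fun k _ => by rw [map_smul, Pi.smul_apply, smul_eq_mul, mul_comm]
  have hexp' : ∀ y k, A.symm y k = ∑ i, A.symm (Pi.single i 1) k * y i := by
    intro x i
    have h1 : x = ∑ k, x k • (Pi.single k 1 : Fin N → ℂ) := by
      funext k
      rw [Finset.sum_apply, Finset.sum_eq_single k]
      · simp
      · intro j _ hj
        rw [Pi.smul_apply, Pi.single_eq_of_ne (Ne.symm hj), smul_zero]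
      · intro h; exact absurd (Finset.mem_univ k) h
    conv_lhs => rw [h1, map_sum, Finset.sum_apply]
    exact Finset.sum_congr rfl fun k _ => by rw [map_smul, Pi.smul_apply, smul_eq_mul, mul_comm]
  refine ⟨fun i k => A (Pi.single k 1) i, fun k i => A.symm (Pi.single i 1) k, ?_, ?_, ?_⟩
  · intro i j
    rw [← hexp, A.apply_symm_apply, Pi.single_apply]
  · intro k l
    rw [← hexp', A.symm_apply_apply, Pi.single_apply]
  · intro j k
    have h1 := hA (Pi.single j 1) (Pi.single k 1)
    rw [EIG.dot_single, mul_one, Matrix.mulVec_single_one] at h1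
    have h2 : S k j = S j k := by
      conv_lhs => rw [← hS.eq]
      rfl
    have h3 : S.col j k = S k j := rfl
    rw [h3, h2] at h1
    rw [← h1]
    rfl

variable {S : Matrix (Option κ') (Option κ') ℂ} {a : Fin N → Option κ' → ℂ} {b : Option κ' → Fin N → ℂ}

theorem lsub_C {σ τ : Type} [Fintype τ] (a : σ → τ → ℂ) (c : ℂ) :
    lsub a (C c : MvPolynomial σ ℂ) = C c := (lsub a).commutes c

theorem chg_sl {κ : Type} [Fintype κ] [DecidableEq κ] {S : Matrix κ κ ℂ} {a : Fin N → κ → ℂ}
    {b : κ → Fin N → ℂ} (h : Chg S a b) (j : κ) : sl S j = ∑ i, C (a i j) * lsub a (X i) := by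
  unfold sl
  simp only [lsub_X, Finset.mul_sum, ← mul_assoc, ← C_mul, h.sq, map_sum, Finset.sum_mul]
  rw [Finset.sum_comm]

theorem chg_lsub_sl {κ : Type} [Fintype κ] [DecidableEq κ] {S : Matrix κ κ ℂ} {a : Fin N → κ → ℂ}
    {b : κ → Fin N → ℂ} (h : Chg S a b) (j : κ) : lsub b (sl S j) = ∑ i, C (a i j) * X i := by
  rw [chg_sl h, map_sum]
  refine Finset.sum_congr rfl fun i _ => ?_
  rw [map_mul, lsub_C, lsub_comp a b h.ab]

theorem chg_pderiv {κ : Type} [Fintype κ] [DecidableEq κ] {S : Matrix κ κ ℂ} {a : Fin N → κ → ℂ}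
    {b : κ → Fin N → ℂ} (h : Chg S a b) (f : MvPolynomial κ ℂ) (j : κ) :
    lsub b (pderiv j f) = ∑ i, C (a i j) * pderiv i (lsub b f) := by
  have h1 : lsub b (∑ i, C (a i j) * lsub a (pderiv i (lsub b f))) =
      ∑ i, C (a i j) * pderiv i (lsub b f) := by
    rw [map_sum]
    refine Finset.sum_congr rfl fun i _ => ?_
    rw [map_mul, lsub_C, lsub_comp a b h.ab]
  rw [← h1, ← pderiv_lsub, lsub_comp b a h.ba]

theorem chg_minor {κ : Type} [Fintype κ] [DecidableEq κ] {S : Matrix κ κ ℂ} {a : Fin N → κ → ℂ}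
    {b : κ → Fin N → ℂ} (h : Chg S a b) (f : MvPolynomial κ ℂ) (j k : κ) :
    lsub b (sl S j * pderiv k f - sl S k * pderiv j f) ∈ eigIdeal (lsub b f) := by
  rw [map_sub, map_mul, map_mul, chg_lsub_sl h, chg_lsub_sl h, chg_pderiv h, chg_pderiv h,
    Finset.sum_mul_sum, Finset.sum_mul_sum]
  have h1 : ∑ i, ∑ i', C (a i k) * X i * (C (a i' j) * pderiv i' (lsub b f)) =
      ∑ i, ∑ i', C (a i' k) * X i' * (C (a i j) * pderiv i (lsub b f)) := Finset.sum_comm
  rw [h1, ← Finset.sum_sub_distrib]
  refine Ideal.sum_mem _ fun i _ => ?_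
  rw [← Finset.sum_sub_distrib]
  refine Ideal.sum_mem _ fun i' _ => ?_
  have h2 : C (a i j) * X i * (C (a i' k) * pderiv i' (lsub b f)) -
      C (a i' k) * X i' * (C (a i j) * pderiv i (lsub b f)) =
      (C (a i j) * C (a i' k)) * (X i * pderiv i' (lsub b f) - X i' * pderiv i (lsub b f)) := by ring
  rw [h2]
  exact Ideal.mul_mem_left _ _ (Ideal.subset_span ⟨i, i', rfl⟩)

/-- conversely the minors of `f'` are combinations of the minors of `f` -/
theorem chg_minor' {κ : Type} [Fintype κ] [DecidableEq κ] {S : Matrix κ κ ℂ} {a : Fin N → κ → ℂ}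
    {b : κ → Fin N → ℂ} (h : Chg S a b) (f : MvPolynomial κ ℂ) (i j : Fin N) :
    lsub a (X i * pderiv j (lsub b f) - X j * pderiv i (lsub b f)) =
      ∑ k, ∑ l, (C (b k i) * C (b l j)) * (sl S k * pderiv l f - sl S l * pderiv k f) := by
  have hX : ∀ i, lsub a (X i) = ∑ k, C (b k i) * sl S k := by
    intro i
    simp only [chg_sl h, Finset.mul_sum]
    rw [Finset.sum_comm]
    have h1 : ∀ j, ∑ k, C (b k i) * (C (a j k) * lsub a (X j)) =
        if j = i then lsub a (X j) else 0 := by
      intro j
      simp only [← mul_assoc, ← C_mul]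
      rw [← Finset.sum_mul, ← map_sum]
      have : ∑ k, b k i * a j k = if j = i then 1 else 0 := by
        rw [← h.ab j i]
        exact Finset.sum_congr rfl fun k _ => mul_comm _ _
      rw [this]
      by_cases hji : j = i
      · simp [hji]
      · simp [hji]
    simp only [h1]
    simp
  have hd : ∀ i, lsub a (pderiv i (lsub b f)) = ∑ k, C (b k i) * pderiv k f := by
    intro i
    rw [pderiv_lsub b f i, map_sum]
    refine Finset.sum_congr rfl fun k _ => ?_
    rw [map_mul, lsub_C, lsub_comp b a h.ba]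
  rw [map_sub, map_mul, map_mul, hX, hX, hd, hd, Finset.sum_mul_sum, Finset.sum_mul_sum]
  have h1 : ∑ k, ∑ l, C (b k j) * sl S k * (C (b l i) * pderiv l f) =
      ∑ k, ∑ l, C (b l j) * sl S l * (C (b k i) * pderiv k f) := Finset.sum_comm
  rw [h1, ← Finset.sum_sub_distrib]
  refine Finset.sum_congr rfl fun k _ => ?_
  rw [← Finset.sum_sub_distrib]
  refine Finset.sum_congr rfl fun l _ => ?_
  ring

theorem dehom_minor (f : MvPolynomial (Option κ') ℂ) (w : Option κ') (k l : Option κ') :
    dehom (sl S k * pderiv l f - sl S l * pderiv k f) ∈ affIdeal f S w := by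
  have h1 : sl S k * pderiv l f - sl S l * pderiv k f =
      sl S k * (pderiv l f - sl S l * pderiv w f) - sl S l * (pderiv k f - sl S k * pderiv w f) := by
    ring
  rw [h1, map_sub, map_mul, map_mul]
  exact Ideal.sub_mem _ (Ideal.mul_mem_left _ _ (Ideal.subset_span ⟨l, rfl⟩))
    (Ideal.mul_mem_left _ _ (Ideal.subset_span ⟨k, rfl⟩))

theorem dehom_X_none : dehom (X none : MvPolynomial (Option κ') ℂ) = 1 := by
  simp [dehom]

theorem dehom_X_some (k : κ') : dehom (X (some k) : MvPolynomial (Option κ') ℂ) = X k := by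
  simp [dehom]

theorem eval_dehom (q : κ' → ℂ) (g : MvPolynomial (Option κ') ℂ) :
    eval q (dehom g) = eval (fun o => o.elim 1 q) g := by
  have h : (eval q).comp ((dehom : MvPolynomial (Option κ') ℂ →ₐ[ℂ] MvPolynomial κ' ℂ) :
      MvPolynomial (Option κ') ℂ →+* MvPolynomial κ' ℂ) =
      eval (fun o : Option κ' => o.elim 1 q) := by
    apply MvPolynomial.ringHom_ext
    · intro c
      simp [dehom]
    · intro i
      cases i <;> simp [dehom]
  exact RingHom.congr_fun h g

/-- section of the dehomogenization -/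
noncomputable def psi (b : Option κ' → Fin N → ℂ) : MvPolynomial κ' ℂ →ₐ[ℂ] MvPolynomial (Fin N) ℂ :=
  aeval fun k => lsub b (X (some k))

theorem psi_dehom (b : Option κ' → Fin N → ℂ) (g : MvPolynomial (Option κ') ℂ) :
    psi b (dehom g) - lsub b g ∈ Ideal.span {linForm (b none) - 1} := by
  rw [← Ideal.Quotient.eq]
  set J := Ideal.span {linForm (b none) - 1}
  have h : ((Ideal.Quotient.mkₐ ℂ J).comp ((psi b).comp dehom)) =
      (Ideal.Quotient.mkₐ ℂ J).comp (lsub b) := by
    apply MvPolynomial.algHom_ext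
    intro i
    cases i with
    | none =>
      simp only [AlgHom.comp_apply, dehom_X_none, map_one]
      have h1 : lsub b (X none) = linForm (b none) := lsub_X _ _
      rw [h1]
      change (1 : _ ⧸ J) = Ideal.Quotient.mk J (linForm (b none))
      rw [← map_one (Ideal.Quotient.mk J), Ideal.Quotient.eq, ← neg_sub]
      exact J.neg_mem (Ideal.subset_span rfl)
    | some k =>
      simp only [AlgHom.comp_apply, dehom_X_some]
      congr 1
      exact aeval_X _ _
  exact AlgHom.congr_fun h g

theorem psi_mem_chart (h : Chg S a b) (f : MvPolynomial (Option κ') ℂ) (w : Option κ')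
    (hw : ∀ j, S w j = if j = none then 1 else 0) (g : MvPolynomial κ' ℂ) (hg : g ∈ affIdeal f S w) :
    psi b g ∈ chartIdeal (lsub b f) (b none) := by
  unfold affIdeal at hg
  induction hg using Submodule.span_induction with
  | mem x hx =>
    obtain ⟨j, rfl⟩ := hx
    have h1 := psi_dehom b (pderiv j f - sl S j * pderiv w f)
    have hslw : sl S w = X none := by
      unfold sl
      simp only [hw]
      simp
    have h2 : lsub b (pderiv j f - sl S j * pderiv w f) =
        lsub b (sl S w * pderiv j f - sl S j * pderiv w f) -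
          (linForm (b none) - 1) * lsub b (pderiv j f) := by
      rw [hslw, map_sub, map_sub, map_mul, map_mul]
      have h3 : lsub b (X none) = linForm (b none) := lsub_X _ _
      rw [h3]
      ring
    have h4 : psi b (dehom (pderiv j f - sl S j * pderiv w f)) =
        (psi b (dehom (pderiv j f - sl S j * pderiv w f)) -
          lsub b (pderiv j f - sl S j * pderiv w f)) +
        (lsub b (sl S w * pderiv j f - sl S j * pderiv w f) -
          (linForm (b none) - 1) * lsub b (pderiv j f)) := by
      rw [← h2]; ring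
    rw [h4]
    refine Ideal.add_mem _ (Ideal.mem_sup_right h1) (Ideal.sub_mem _ (Ideal.mem_sup_left (chg_minor h f w j))
      (Ideal.mem_sup_right (Ideal.mul_mem_right _ _ (Ideal.subset_span rfl))))
  | zero => rw [map_zero]; exact Ideal.zero_mem _
  | add x y _ _ hx hy => rw [map_add]; exact Ideal.add_mem _ hx hy
  | smul c x _ hx => rw [smul_eq_mul, map_mul]; exact Ideal.mul_mem_left _ _ hx

theorem dehom_lsub_mem_iff (h : Chg S a b) (f : MvPolynomial (Option κ') ℂ) (w : Option κ')
    (hw : ∀ j, S w j = if j = none then 1 else 0) (x : MvPolynomial (Fin N) ℂ) :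
    dehom (lsub a x) ∈ affIdeal f S w ↔ x ∈ chartIdeal (lsub b f) (b none) := by
  constructor
  · intro hx
    have h1 := psi_mem_chart h f w hw _ hx
    have h2 := psi_dehom b (lsub a x)
    rw [lsub_comp a b h.ab] at h2
    have h3 : x = psi b (dehom (lsub a x)) - (psi b (dehom (lsub a x)) - x) := by ring
    rw [h3]
    exact Ideal.sub_mem _ h1 (Ideal.mem_sup_right h2)
  · intro hx
    obtain ⟨y, hy, z, hz, rfl⟩ := Submodule.mem_sup.mp hx
    clear hx
    rw [map_add, map_add]
    refine Ideal.add_mem _ ?_ ?_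
    · unfold eigIdeal at hy
      induction hy using Submodule.span_induction with
      | mem g hg =>
        obtain ⟨i, j, rfl⟩ := hg
        rw [chg_minor' h, map_sum]
        refine Ideal.sum_mem _ fun k _ => ?_
        rw [map_sum]
        refine Ideal.sum_mem _ fun l _ => ?_
        rw [map_mul]
        exact Ideal.mul_mem_left _ _ (dehom_minor f w k l)
      | zero => simp
      | add u v _ _ hu hv =>
        rw [map_add, map_add]
        exact Ideal.add_mem _ hu hv
      | smul c u _ hu =>
        rw [smul_eq_mul, map_mul, map_mul]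
        exact Ideal.mul_mem_left _ _ hu
    · obtain ⟨c, rfl⟩ := Ideal.mem_span_singleton'.mp hz
      have h3 : linForm (b none) = lsub b (X none) := (lsub_X _ _).symm
      rw [map_mul, map_mul, map_sub, map_one, h3, lsub_comp b a h.ba, map_sub, map_one, dehom_X_none,
        sub_self, mul_zero]
      exact Ideal.zero_mem _

end Transfer

end EY
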