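import Pool.Agent.helper5.EY.Big2
import Pool.Agent.helper46.U.Asm
import Pool.Agent.helper44.U.UOdd
import Pool.Agent.helper24.UU.B2
import Pool.Agent.helper66.UU.S2

set_option autoImplicit false

/-!
# EY-UAll: the module (U) for every `q ≥ 2`
-/

namespace EY

open MvPolynomial

theorem ust {q : ℕ} (hq : 2 ≤ q) : USt q := by
  intro K E h
  refine u_crit hq ?_ (fun hev K E s ψ _ hs h hZ => S2.s2 hq hev K E s ψ hs h hZ) (fun ho => u_odd ho hq) K E h
  intro hev E hE
  obtain ⟨k, rfl⟩ := even_iff_two_dvd.mp hev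
  exact k1_even (by omega) (by
    have e : (2 * k) ^ 2 = 2 * (2 * k * k) := by ring
    omega)

end EY
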